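import Pool.Agent.helper63.NU.Defs2
import Pool.Agent.helper41.NU.A1
import Pool.Agent.helper41.NU.A2
import Pool.Agent.helper40.NU.A5

set_option autoImplicit false
set_option linter.all false

/-! Module C1: uniform Taylor expansion and sub-mean value inequality. -/

open MeasureTheory Filter Topology Set
open scoped ContDiff Manifold Matrix ENNReal ComplexOrder

noncomputable section

namespace Pool.Agent.helper63.NU

namespace C1aux

theorem two_le : (2 : WithTop ℕ∞) ≤ ((⊤ : ℕ∞) : WithTop ℕ∞) := by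
  have : ((2 : ℕ∞) : WithTop ℕ∞) ≤ ((⊤ : ℕ∞) : WithTop ℕ∞) := WithTop.coe_le_coe.2 le_top
  exact this

/-- second order Taylor formula with uniform remainder, Banach space version on a ball -/
theorem taylor_ball {F : Type*} [NormedAddCommGroup F] [NormedSpace ℝ F] {φ : F → ℝ} {p : F}
    {r ε : ℝ} (hε : 0 ≤ ε)
    (hφ : ∀ y ∈ Metric.closedBall p r, ContDiffAt ℝ 2 φ y)
    (h2 : ∀ y ∈ Metric.closedBall p r,
      ‖fderiv ℝ (fderiv ℝ φ) y - fderiv ℝ (fderiv ℝ φ) p‖ ≤ ε)
    {y : F} (hy : y ∈ Metric.closedBall p r) :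
    |φ y - φ p - fderiv ℝ φ p (y - p) - (1 / 2) * fderiv ℝ (fderiv ℝ φ) p (y - p) (y - p)|
      ≤ ε * ‖y - p‖ ^ 2 := by
  have hr : 0 ≤ r := le_trans dist_nonneg hy
  have hp : p ∈ Metric.closedBall p r := Metric.mem_closedBall_self hr
  set B := fderiv ℝ (fderiv ℝ φ) p with hB
  have hsymm : ∀ v w, B v w = B w v := by
    intro v w
    have := (hφ p hp).isSymmSndFDerivAt (by simp)
    exact this v w
  -- first derivative of the remainder
  have hd1 : ∀ z ∈ Metric.closedBall p r,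
      HasFDerivAt (fun z => φ z - φ p - fderiv ℝ φ p (z - p) - (1 / 2) * B (z - p) (z - p))
        (fderiv ℝ φ z - fderiv ℝ φ p - B (z - p)) z := by
    intro z hz
    have h1 : HasFDerivAt φ (fderiv ℝ φ z) z :=
      ((hφ z hz).differentiableAt (by norm_num)).hasFDerivAt
    have hid : HasFDerivAt (fun z : F => z - p) (ContinuousLinearMap.id ℝ F) z :=
      (hasFDerivAt_id z).sub_const p
    have h3 : HasFDerivAt (fun z : F => fderiv ℝ φ p (z - p)) (fderiv ℝ φ p) z := by
      exact ((fderiv ℝ φ p).hasFDerivAt.comp z hid).congr_fderiv (by ext; simp)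
    have h4 : HasFDerivAt (fun z : F => B (z - p) (z - p)) ((2 : ℝ) • B (z - p)) z := by
      have hB1 : HasFDerivAt (fun z : F => B (z - p)) (B.comp (ContinuousLinearMap.id ℝ F)) z :=
        B.hasFDerivAt.comp z hid
      refine (hB1.clm_apply hid).congr_fderiv ?_
      ext v
      simp only [ContinuousLinearMap.comp_id, ContinuousLinearMap.smul_apply, smul_eq_mul,
        ContinuousLinearMap.add_apply, ContinuousLinearMap.flip_apply]
      rw [hsymm v (z - p)]
      ring
    have h5 := ((h1.sub_const (φ p)).sub h3).sub (h4.const_mul (1 / 2))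
    refine h5.congr_fderiv ?_
    ext v
    simp
  -- second derivative
  have hd2 : ∀ z ∈ Metric.closedBall p r,
      HasFDerivAt (fun z => fderiv ℝ φ z - fderiv ℝ φ p - B (z - p))
        (fderiv ℝ (fderiv ℝ φ) z - B) z := by
    intro z hz
    have h1 : HasFDerivAt (fderiv ℝ φ) (fderiv ℝ (fderiv ℝ φ) z) z := by
      have : ContDiffAt ℝ 1 (fderiv ℝ φ) z := (hφ z hz).fderiv_right (by norm_num)
      exact (this.differentiableAt (by norm_num)).hasFDerivAt
    have hid : HasFDerivAt (fun z : F => z - p) (ContinuousLinearMap.id ℝ F) z :=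
      (hasFDerivAt_id z).sub_const p
    have hB1 : HasFDerivAt (fun z : F => B (z - p)) (B.comp (ContinuousLinearMap.id ℝ F)) z :=
      B.hasFDerivAt.comp z hid
    exact ((h1.sub_const (fderiv ℝ φ p)).sub hB1).congr_fderiv (by simp)
  -- bound of the first derivative
  have hb1 : ∀ z ∈ Metric.closedBall p r,
      ‖fderiv ℝ φ z - fderiv ℝ φ p - B (z - p)‖ ≤ ε * ‖z - p‖ := by
    intro z hz
    have := (convex_closedBall p r).norm_image_sub_le_of_norm_hasFDerivWithin_le
      (f := fun z => fderiv ℝ φ z - fderiv ℝ φ p - B (z - p))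
      (f' := fun z => fderiv ℝ (fderiv ℝ φ) z - B) (C := ε)
      (fun x hx => (hd2 x hx).hasFDerivWithinAt) (fun x hx => h2 x hx) hp hz
    simpa using this
  -- bound of the remainder on the smaller ball
  have hsub : Metric.closedBall p ‖y - p‖ ⊆ Metric.closedBall p r := by
    apply Metric.closedBall_subset_closedBall
    rw [← dist_eq_norm]; exact hy
  have hyb : y ∈ Metric.closedBall p ‖y - p‖ := by
    rw [Metric.mem_closedBall, dist_eq_norm]
  have hpb : p ∈ Metric.closedBall p ‖y - p‖ := Metric.mem_closedBall_self (norm_nonneg _)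
  have := (convex_closedBall p ‖y - p‖).norm_image_sub_le_of_norm_hasFDerivWithin_le
      (f := fun z => φ z - φ p - fderiv ℝ φ p (z - p) - (1 / 2) * B (z - p) (z - p))
      (f' := fun z => fderiv ℝ φ z - fderiv ℝ φ p - B (z - p)) (C := ε * ‖y - p‖)
      (fun x hx => (hd1 x (hsub hx)).hasFDerivWithinAt)
      (fun x hx => (hb1 x (hsub hx)).trans (by
        have : ‖x - p‖ ≤ ‖y - p‖ := by rw [← dist_eq_norm]; exact hx
        gcongr)) hpb hyb
  simp only [sub_self, map_zero, mul_zero, sub_zero, ContinuousLinearMap.zero_apply,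
    Real.norm_eq_abs] at this
  calc _ ≤ ε * ‖y - p‖ * ‖y - p‖ := this
    _ = ε * ‖y - p‖ ^ 2 := by ring

variable {n : ℕ}

/-- `Dφ v = 2 Re ∑ ∂_jφ v_j` -/
theorem fderiv_real {φ : E n → ℝ} {y : E n} (hφ : DifferentiableAt ℝ φ y) (v : E n) :
    fderiv ℝ φ y v = 2 * (∑ j, dz j (fun z => ((φ z : ℝ) : ℂ)) y * v j).re := by
  have h1 : fderiv ℝ (fun z => ((φ z : ℝ) : ℂ)) y v = ((fderiv ℝ φ y v : ℝ) : ℂ) := by
    have h := (Complex.ofRealCLM.hasFDerivAt (x := φ y)).comp y hφ.hasFDerivAt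
    have h' : HasFDerivAt (fun z => ((φ z : ℝ) : ℂ)) (Complex.ofRealCLM.comp (fderiv ℝ φ y)) y := h
    rw [h'.fderiv]; simp
  have h2 : ∀ j, db j (fun z => ((φ z : ℝ) : ℂ)) y
      = (starRingEnd ℂ) (dz j (fun z => ((φ z : ℝ) : ℂ)) y) := by
    intro j
    rw [← db_conj]
    simp
  have h3 := fderiv_eq_sum (fun z => ((φ z : ℝ) : ℂ)) y v
  rw [h1] at h3
  have h4 := congrArg Complex.re h3
  rw [Complex.ofReal_re] at h4
  rw [h4, Complex.re_sum, Complex.re_sum, Finset.mul_sum]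
  refine Finset.sum_congr rfl fun j _ => ?_
  rw [h2 j, ← map_mul, Complex.add_re, Complex.conj_re]
  ring

/-- `D²φ(v,v) = 2 Re ∑ ∂_j∂_kφ v_j v_k + 2 Re ∑ ∂_j∂̄_kφ v_j conj v_k` -/
theorem fderiv2_real {φ : E n → ℝ} {p : E n} (hφ : ContDiffAt ℝ 2 φ p) (v : E n) :
    fderiv ℝ (fderiv ℝ φ) p v v
      = 2 * (∑ j, ∑ k, dz j (dz k (fun z => ((φ z : ℝ) : ℂ))) p * v j * v k).re
        + 2 * (∑ j, ∑ k, lev φ p j k * v j * (starRingEnd ℂ) (v k)).re := by
  set f : E n → ℂ := fun z => ((φ z : ℝ) : ℂ) with hf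
  have hfC : ContDiffAt ℝ 2 f p := Complex.ofRealCLM.contDiff.contDiffAt.comp p hφ
  -- derivative of `y ↦ Dφ(y) v`
  have hd : DifferentiableAt ℝ (fderiv ℝ φ) p := by
    have : ContDiffAt ℝ 1 (fderiv ℝ φ) p := hφ.fderiv_right (by norm_num)
    exact this.differentiableAt (by norm_num)
  have h1 : HasFDerivAt (fun y => fderiv ℝ φ y v)
      ((fderiv ℝ (fderiv ℝ φ) p).flip v) p := by
    have := hd.hasFDerivAt.clm_apply (hasFDerivAt_const v p)
    refine this.congr_fderiv ?_
    ext w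
    simp
  have hfd : ContDiffAt ℝ 1 (fderiv ℝ f) p := hfC.fderiv_right (by norm_num)
  have hfd1 : DifferentiableAt ℝ (fderiv ℝ f) p := hfd.differentiableAt (by norm_num)
  have hfdv : ∀ w : E n, DifferentiableAt ℝ (fun y => fderiv ℝ f y w) p := fun w =>
    hfd1.clm_apply (differentiableAt_const w)
  have hdz : ∀ j, DifferentiableAt ℝ (dz j f) p := by
    intro j
    have : dz j f = fun y => (fderiv ℝ f y (Pi.single j 1)
      - Complex.I * fderiv ℝ f y (Pi.single j Complex.I)) / 2 := rfl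
    rw [this]
    simp only [div_eq_mul_inv]
    exact ((hfdv (Pi.single j 1)).sub ((hfdv (Pi.single j Complex.I)).const_mul Complex.I)).mul_const
      (2 : ℂ)⁻¹
  have hev : ∀ᶠ y in 𝓝 p, fderiv ℝ φ y v = 2 * (∑ j, dz j f y * v j).re := by
    filter_upwards [hφ.eventually (by simp)] with y hy
    exact fderiv_real (hy.differentiableAt (by norm_num)) v
  have h2 : HasFDerivAt (fun y => 2 * (∑ j, dz j f y * v j).re)
      ((fderiv ℝ (fderiv ℝ φ) p).flip v) p := h1.congr_of_eventuallyEq (by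
        filter_upwards [hev] with y hy using hy.symm)
  have h3 : HasFDerivAt (fun y => 2 * (∑ j, dz j f y * v j).re)
      ((2 : ℝ) • (Complex.reCLM.comp (∑ j, (v j) • fderiv ℝ (dz j f) p))) p := by
    have hs : HasFDerivAt (fun y => ∑ j, dz j f y * v j) (∑ j, (v j) • fderiv ℝ (dz j f) p) p :=
      HasFDerivAt.fun_sum fun j _ => (hdz j).hasFDerivAt.mul_const (v j)
    have := (Complex.reCLM.hasFDerivAt (x := ∑ j, dz j f p * v j)).comp p hs
    exact this.const_mul 2
  have h4 := congrArg (fun L : E n →L[ℝ] ℝ => L v) (h2.unique h3)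
  simp only [ContinuousLinearMap.flip_apply, ContinuousLinearMap.smul_apply, smul_eq_mul,
    ContinuousLinearMap.comp_apply, Complex.reCLM_apply, ContinuousLinearMap.sum_apply] at h4
  rw [h4]
  have h5 : ∀ k, fderiv ℝ (dz k f) p v
      = ∑ j, (dz j (dz k f) p * v j + (starRingEnd ℂ) (dz j (db k f) p * v j)) := by
    intro k
    rw [fderiv_eq_sum (dz k f) p v]
    refine Finset.sum_congr rfl fun j _ => ?_
    congr 1
    rw [map_mul]
    congr 1
    have h6 : dz k f = fun z => (starRingEnd ℂ) (db k f z) := by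
      funext z
      rw [← dz_conj]
      simp [hf]
    rw [h6, db_conj]
  have hl : ∀ j k, lev φ p j k = dz j (db k f) p := fun j k => rfl
  have h7 : (∑ k, v k * fderiv ℝ (dz k f) p v).re
      = (∑ j, ∑ k, dz j (dz k f) p * v j * v k).re
        + (∑ j, ∑ k, lev φ p j k * v j * (starRingEnd ℂ) (v k)).re := by
    have h8 : ∑ k, v k * fderiv ℝ (dz k f) p v = (∑ j, ∑ k, dz j (dz k f) p * v j * v k)
        + (starRingEnd ℂ) (∑ j, ∑ k, lev φ p j k * v j * (starRingEnd ℂ) (v k)) := by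
      have e1 : ∑ k, v k * fderiv ℝ (dz k f) p v
          = ∑ k, ∑ j, (dz j (dz k f) p * v j * v k
            + (starRingEnd ℂ) (dz j (db k f) p * v j * (starRingEnd ℂ) (v k))) := by
        refine Finset.sum_congr rfl fun k _ => ?_
        rw [h5 k, Finset.mul_sum]
        refine Finset.sum_congr rfl fun j _ => ?_
        simp only [map_mul, Complex.conj_conj]
        ring
      rw [e1, Finset.sum_comm]
      simp only [Finset.sum_add_distrib, map_sum, hl]
    rw [h8, Complex.add_re, Complex.conj_re]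
  rw [h7]
  ring

end C1aux

/-- Module C1: uniform Taylor expansion -/
theorem taylor_unif {n : ℕ} {U : Set (E n)} (hU : IsOpen U) {φ : E n → ℝ}
    (hφ : ContDiffOn ℝ ∞ φ U) {K : Set (E n)} (hK : IsCompact K) (hKU : K ⊆ U) {ε : ℝ}
    (hε : 0 < ε) : ∃ r > 0, ∀ p ∈ K, Metric.closedBall p r ⊆ U ∧ ∃ g : E n → ℂ,
      Differentiable ℂ g ∧ ∀ y ∈ Metric.closedBall p r,
        |φ y - 2 * (g y).re - (∑ j, ∑ k, lev φ p j k * (y j - p j) *
          (starRingEnd ℂ) (y k - p k)).re| ≤ ε * ‖y - p‖ ^ 2 := by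
  obtain ⟨δ, hδ, hδU⟩ := hK.exists_cthickening_subset_open hU hKU
  have hK' : IsCompact (Metric.cthickening δ K) := hK.cthickening
  have hφ2 : ∀ y ∈ U, ContDiffAt ℝ ∞ φ y := fun y hy => hφ.contDiffAt (hU.mem_nhds hy)
  have hcont : ContinuousOn (fderiv ℝ (fderiv ℝ φ)) (Metric.cthickening δ K) := by
    intro y hy
    have h1 : ContDiffAt ℝ ∞ (fderiv ℝ φ) y := (hφ2 y (hδU hy)).fderiv_right (by simp)
    have h2 : ContDiffAt ℝ ∞ (fderiv ℝ (fderiv ℝ φ)) y := h1.fderiv_right (by simp)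
    exact h2.continuousAt.continuousWithinAt
  have huc : UniformContinuousOn (fderiv ℝ (fderiv ℝ φ)) (Metric.cthickening δ K) :=
    hK'.uniformContinuousOn_of_continuous hcont
  obtain ⟨r', hr', hr'2⟩ := (Metric.uniformContinuousOn_iff
    (f := fderiv ℝ (fderiv ℝ φ)) (s := Metric.cthickening δ K)).1 huc ε hε
  refine ⟨min δ (r' / 2), by positivity, fun p hp => ?_⟩
  have hsub : Metric.closedBall p (min δ (r' / 2)) ⊆ Metric.cthickening δ K := by
    refine (Metric.closedBall_subset_closedBall (min_le_left _ _)).trans ?_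
    exact Metric.closedBall_subset_cthickening hp δ
  have hpp : p ∈ Metric.cthickening δ K := Metric.self_subset_cthickening K hp
  refine ⟨hsub.trans hδU, ?_⟩
  set f : E n → ℂ := fun z => ((φ z : ℝ) : ℂ) with hf
  refine ⟨fun y => (φ p : ℂ) / 2 + ∑ j, dz j f p * (y j - p j)
    + (1 / 2) * ∑ j, ∑ k, dz j (dz k f) p * (y j - p j) * (y k - p k), ?_, ?_⟩
  · fun_prop
  · intro y hy
    have h := C1aux.taylor_ball (φ := φ) (p := p) (r := min δ (r' / 2)) hε.le
      (fun z hz => (hφ2 z (hδU (hsub hz))).of_le C1aux.two_le)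
      (fun z hz => by
        have h1 : dist z p < r' := lt_of_le_of_lt (Metric.mem_closedBall.1 hz)
          (lt_of_le_of_lt (min_le_right _ _) (by linarith))
        have := hr'2 z (hsub hz) p hpp h1
        refine le_trans (le_of_eq (dist_eq_norm (fderiv ℝ (fderiv ℝ φ) z)
          (fderiv ℝ (fderiv ℝ φ) p)).symm) ?_
        exact this.le) hy
    rw [C1aux.fderiv2_real ((hφ2 p (hKU hp)).of_le C1aux.two_le),
      C1aux.fderiv_real ((hφ2 p (hKU hp)).differentiableAt (by simp))] at h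
    refine le_trans (le_of_eq ?_) h
    congr 1
    simp only [Complex.add_re, Pi.sub_apply]
    have e1 : ((φ p : ℂ) / 2).re = φ p / 2 := by
      rw [show ((φ p : ℂ) / 2) = ((φ p / 2 : ℝ) : ℂ) by push_cast; ring, Complex.ofReal_re]
    have e2 : ∀ w : ℂ, ((1 / 2 : ℂ) * w).re = (1 / 2) * w.re := by
      intro w
      rw [show (1 / 2 : ℂ) = ((1 / 2 : ℝ) : ℂ) by push_cast; ring, Complex.re_ofReal_mul]
    rw [e1, e2]
    ring

/-- Module C1: uniform sub-mean value inequality -/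
theorem submean_unif {n : ℕ} {U : Set (E n)} (hU : IsOpen U) {φ : E n → ℝ}
    (hφ : ContDiffOn ℝ ∞ φ U) {K : Set (E n)} (hK : IsCompact K) (hKU : K ⊆ U) :
    ∃ C > 0, ∃ r > 0, ∀ p ∈ K, Metric.closedBall p r ⊆ U ∧ ∀ k : ℕ, 1 ≤ k → ∀ f : E n → ℂ,
      DifferentiableOn ℂ f (Metric.closedBall p (r / Real.sqrt k)) →
      ‖f p‖ ^ 2 * Real.exp (-(k * φ p)) ≤ C * (k : ℝ) ^ n *
        ∫ y in Metric.closedBall p (r / Real.sqrt k), ‖f y‖ ^ 2 * Real.exp (-(k * φ y)) := by
  obtain ⟨r, hr, hr2⟩ := taylor_unif hU hφ hK hKU (ε := 1) one_pos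
  -- uniform bound of the Levi matrix
  have hb : ∃ A : ℝ, 0 ≤ A ∧ ∀ p ∈ K, ∑ j, ∑ k, ‖lev φ p j k‖ ≤ A := by
    have hc : ContinuousOn (fun p => ∑ j, ∑ k, ‖lev φ p j k‖) K := by
      refine continuousOn_finsetSum _ fun j _ => continuousOn_finsetSum _ fun k _ => ?_
      exact (((contDiffOn_lev hU hφ j k).continuousOn).mono hKU).norm
    obtain ⟨A, hA⟩ := (hK.image_of_continuousOn hc).bddAbove
    refine ⟨max A 0, le_max_right _ _, fun p hp => le_trans (hA ⟨p, hp, rfl⟩) (le_max_left _ _)⟩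
  obtain ⟨A, hA0, hA⟩ := hb
  refine ⟨Real.exp ((1 + A) * r ^ 2) / (Real.pi * r ^ 2) ^ n, by positivity, r, hr,
    fun p hp => ?_⟩
  obtain ⟨hrU, g, hg, hgt⟩ := hr2 p hp
  refine ⟨hrU, fun k hk f hf => ?_⟩
  have hk0 : (0 : ℝ) < k := by exact_mod_cast hk
  have hk1 : (1 : ℝ) ≤ k := by exact_mod_cast hk
  have hsk : 1 ≤ Real.sqrt k := by rw [Real.one_le_sqrt]; exact hk1
  have hsk0 : 0 < Real.sqrt k := by positivity
  set ρ := r / Real.sqrt k with hρ
  have hρ0 : 0 < ρ := by positivity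
  have hρr : ρ ≤ r := div_le_self hr.le hsk
  have hρ2 : ρ ^ 2 = r ^ 2 / k := by rw [hρ, div_pow, Real.sq_sqrt hk0.le]
  have hbr : Metric.closedBall p ρ ⊆ Metric.closedBall p r :=
    Metric.closedBall_subset_closedBall hρr
  -- comparison of the weights
  have hcmp : ∀ y ∈ Metric.closedBall p ρ, |φ y - 2 * (g y).re| ≤ (1 + A) * ρ ^ 2 := by
    intro y hy
    have h1 := hgt y (hbr hy)
    have hyp : ‖y - p‖ ≤ ρ := by rw [← dist_eq_norm]; exact hy
    have h2 : |(∑ j, ∑ k, lev φ p j k * (y j - p j) * (starRingEnd ℂ) (y k - p k)).re|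
        ≤ A * ρ ^ 2 := by
      refine (Complex.abs_re_le_norm _).trans ?_
      have h3 : ‖∑ j, ∑ k, lev φ p j k * (y j - p j) * (starRingEnd ℂ) (y k - p k)‖
          ≤ ∑ j, ∑ k, ‖lev φ p j k‖ * ρ ^ 2 := by
        refine (norm_sum_le _ _).trans (Finset.sum_le_sum fun j _ => ?_)
        refine (norm_sum_le _ _).trans (Finset.sum_le_sum fun k _ => ?_)
        rw [norm_mul, norm_mul, RCLike.norm_conj, mul_assoc]
        have hj : ‖y j - p j‖ ≤ ρ := (norm_le_pi_norm (y - p) j).trans hyp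
        have hk' : ‖y k - p k‖ ≤ ρ := (norm_le_pi_norm (y - p) k).trans hyp
        rw [pow_two]
        gcongr
      refine h3.trans ?_
      have h4 : ∑ j, ∑ k, ‖lev φ p j k‖ * ρ ^ 2 = (∑ j, ∑ k, ‖lev φ p j k‖) * ρ ^ 2 := by
        rw [Finset.sum_mul]
        exact Finset.sum_congr rfl fun j _ => (Finset.sum_mul _ _ _).symm
      rw [h4]
      exact mul_le_mul_of_nonneg_right (hA p hp) (by positivity)
    have h5 : 1 * ‖y - p‖ ^ 2 ≤ ρ ^ 2 := by
      rw [one_mul]
      exact pow_le_pow_left₀ (norm_nonneg _) hyp 2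
    have h6 := abs_sub_abs_le_abs_sub (φ y - 2 * (g y).re)
      ((∑ j, ∑ k, lev φ p j k * (y j - p j) * (starRingEnd ℂ) (y k - p k)).re)
    nlinarith [h1, h2, h5, h6]
  have hp0 : φ p = 2 * (g p).re := by
    have h1 := hgt p (Metric.mem_closedBall_self hr.le)
    have h2 : (∑ j, ∑ k, lev φ p j k * (p j - p j) * (starRingEnd ℂ) (p k - p k)) = 0 := by
      simp
    rw [h2] at h1
    have h3 : |φ p - 2 * (g p).re - (0 : ℂ).re| ≤ 0 := by simpa using h1
    have h4 := abs_nonpos_iff.1 h3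
    simp at h4
    linarith
  -- the holomorphic function `F = f e^{-k g}`
  set F : E n → ℂ := fun y => f y * Complex.exp (-((k : ℂ) * g y)) with hF
  have hFd : DifferentiableOn ℂ F (Metric.closedBall p ρ) := by
    refine hf.mul ?_
    exact (((hg.const_mul (k : ℂ)).neg).cexp).differentiableOn
  have hFn : ∀ y, ‖F y‖ ^ 2 = ‖f y‖ ^ 2 * Real.exp (-(k * (2 * (g y).re))) := by
    intro y
    rw [hF]
    simp only
    rw [norm_mul, mul_pow, Complex.norm_exp, ← Real.exp_nat_mul]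
    congr 2
    simp
    ring
  have hsm := submean hρ0 hFd
  have hle : ∫ y in Metric.closedBall p ρ, ‖F y‖ ^ 2 ≤
      Real.exp ((1 + A) * r ^ 2) *
        ∫ y in Metric.closedBall p ρ, ‖f y‖ ^ 2 * Real.exp (-(k * φ y)) := by
    rw [← integral_const_mul]
    have hcφ : ContinuousOn φ (Metric.closedBall p ρ) :=
      hφ.continuousOn.mono (hbr.trans hrU)
    refine setIntegral_mono_on ?_ ?_ measurableSet_closedBall ?_
    · exact ((hFd.continuousOn.norm).pow 2).integrableOn_compact (isCompact_closedBall p ρ)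
    · refine ContinuousOn.integrableOn_compact (isCompact_closedBall p ρ) ?_
      exact continuousOn_const.mul (((hf.continuousOn.norm).pow 2).mul
        (((continuousOn_const.mul hcφ).neg).rexp))
    · intro y hy
      rw [hFn y]
      have h1 := hcmp y hy
      rw [abs_le] at h1
      have h2 : Real.exp (-(k * (2 * (g y).re))) ≤
          Real.exp ((1 + A) * r ^ 2) * Real.exp (-(k * φ y)) := by
        rw [← Real.exp_add]
        apply Real.exp_le_exp.2
        have h3 : (k : ℝ) * (φ y - 2 * (g y).re) ≤ k * ((1 + A) * ρ ^ 2) :=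
          mul_le_mul_of_nonneg_left h1.2 hk0.le
        have h4 : (k : ℝ) * ((1 + A) * ρ ^ 2) = (1 + A) * r ^ 2 := by
          rw [hρ2]; field_simp
        linarith
      calc ‖f y‖ ^ 2 * Real.exp (-(k * (2 * (g y).re)))
          ≤ ‖f y‖ ^ 2 * (Real.exp ((1 + A) * r ^ 2) * Real.exp (-(k * φ y))) := by gcongr
        _ = _ := by ring
  have hfin : ‖F p‖ ^ 2 * (Real.pi * ρ ^ 2) ^ n ≤ Real.exp ((1 + A) * r ^ 2) *
        ∫ y in Metric.closedBall p ρ, ‖f y‖ ^ 2 * Real.exp (-(k * φ y)) := hsm.trans hle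
  rw [hFn p, ← hp0, hρ2] at hfin
  have h8 : (Real.pi * (r ^ 2 / k)) ^ n = (Real.pi * r ^ 2) ^ n / (k : ℝ) ^ n := by
    rw [← div_pow]; congr 1; ring
  rw [h8, mul_div_assoc', div_le_iff₀ (by positivity)] at hfin
  have h9 : 0 < (Real.pi * r ^ 2) ^ n := by positivity
  rw [div_mul_eq_mul_div, div_mul_eq_mul_div, le_div_iff₀ h9]
  calc _ ≤ _ := hfin
    _ = _ := by ring

end Pool.Agent.helper63.NU
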