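import Pool.Agent.helper53.NU.Q8b
import Pool.Agent.helper80.NU.B4
import Pool.Agent.helper41.NU.B7b
import Pool.Agent.helper74.NU.Q2

set_option autoImplicit false
set_option linter.all false

/-! Module Q8 (helper53): Hörmander's theorem with singular weights. -/

open MeasureTheory Filter Topology Set
open scoped ContDiff Manifold Matrix ENNReal ComplexOrder

noncomputable section

namespace Pool.Agent.helper63.NU

variable {n : ℕ} {M : Type*} [TopologicalSpace M] [ChartedSpace (E n) M]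
  [IsManifold 𝓘(ℂ, E n) ω M]
variable [CompactSpace M] [T2Space M] [ConnectedSpace M]
variable [MeasurableSpace M] [BorelSpace M] {μ : Measure M} {φ : Fam n M ℝ}

namespace Q8

/-- `∑_β |t_{iβ}|²_{L_i φ}` -/
def GG (φ : Fam n M ℝ) {r : ℕ} (L q : Fin r → ℕ) (t : (i : Fin r) → Fin (q i) → Fam n M ℂ)
    (i : Fin r) (x : M) : ℝ := ∑ β, nrm (L i) φ (t i β) x

/-- the regularised real weight -/
def Wr (φ : Fam n M ℝ) {r : ℕ} (L q : Fin r → ℕ) (t : (i : Fin r) → Fin (q i) → Fam n M ℂ)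
    (a : Fin r → ℝ) (ε : ℝ) (x : M) : ℝ := ∏ i, (GG φ L q t i x + ε) ^ (-a i)

variable {r : ℕ} {L q : Fin r → ℕ} {t : (i : Fin r) → Fin (q i) → Fam n M ℂ}
  {a : Fin r → ℝ} {a0 ε : ℝ}

theorem nrm_nonneg (k : ℕ) (φ : Fam n M ℝ) (s : Fam n M ℂ) (x : M) : 0 ≤ nrm k φ s x := by
  unfold nrm; positivity

theorem GG_nonneg (i : Fin r) (x : M) : 0 ≤ GG φ L q t i x :=
  Finset.sum_nonneg fun β _ => nrm_nonneg _ _ _ _

theorem Wr_nonneg (hε : 0 < ε) (x : M) : 0 ≤ Wr φ L q t a ε x :=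
  Finset.prod_nonneg fun i _ => Real.rpow_nonneg (by have := GG_nonneg (φ := φ) (L := L) (t := t) i x; linarith) _

theorem continuous_GG (hφ : IsPos 1 φ) (ht : ∀ i β, IsHol (L i) (t i β)) (i : Fin r) :
    Continuous (GG φ L q t i) := by
  unfold GG
  exact continuous_finset_sum _ fun β _ => continuous_nrm hφ.toIsWeight (ht i β).toIsSec

theorem continuous_Wr (hφ : IsPos 1 φ) (ht : ∀ i β, IsHol (L i) (t i β)) (hε : 0 < ε) :
    Continuous (Wr φ L q t a ε) := by
  unfold Wr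
  refine continuous_finset_prod _ fun i _ => ?_
  refine (((continuous_GG hφ ht i).add continuous_const).rpow_const fun x => ?_)
  left
  have := GG_nonneg (φ := φ) (L := L) (t := t) i x
  change GG φ L q t i x + ε ≠ 0
  positivity

theorem F_GG (hε : 0 < ε) (i : Fin r) (x : M) :
    F (fun β => t i β (chartAt (E n) x)) ε (L i) (φ (chartAt (E n) x)) (chartAt (E n) x x)
      = Real.exp (L i * φ (chartAt (E n) x) (chartAt (E n) x x)) * (GG φ L q t i x + ε) := by
  unfold F GG nrm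
  rw [mul_add, Finset.mul_sum]
  congr 1
  · refine Finset.sum_congr rfl fun β _ => ?_
    rw [Real.exp_neg]
    field_simp
  · ring

theorem exp_psi (hε : 0 < ε) {k : ℕ} (hsum : a0 + ∑ i, a i * L i = k + 1) (x : M) :
    Real.exp (-psi φ L q t a a0 ε (chartAt (E n) x) (chartAt (E n) x x)) *
      Real.exp (φ (chartAt (E n) x) (chartAt (E n) x x))
      = Real.exp (-(k * φ (chartAt (E n) x) (chartAt (E n) x x))) * Wr φ L q t a ε x := by
  have h1 : ∀ i, Real.log (F (fun β => t i β (chartAt (E n) x)) ε (L i) (φ (chartAt (E n) x))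
      (chartAt (E n) x x)) = L i * φ (chartAt (E n) x) (chartAt (E n) x x)
        + Real.log (GG φ L q t i x + ε) := by
    intro i
    have := GG_nonneg (φ := φ) (L := L) (t := t) i x
    rw [F_GG hε, Real.log_mul (Real.exp_pos _).ne' (by positivity), Real.log_exp]
  unfold psi Wr
  simp only [h1]
  set f := φ (chartAt (E n) x) (chartAt (E n) x x)
  have h2 : ∏ i, (GG φ L q t i x + ε) ^ (-a i)
      = Real.exp (-∑ i, a i * Real.log (GG φ L q t i x + ε)) := by
    rw [← Finset.sum_neg_distrib, Real.exp_sum]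
    refine Finset.prod_congr rfl fun i _ => ?_
    have := GG_nonneg (φ := φ) (L := L) (t := t) i x
    rw [Real.rpow_def_of_pos (by positivity)]
    congr 1; ring
  rw [h2, ← Real.exp_add, ← Real.exp_add]
  congr 1
  have h3 : ∑ i, a i * (L i * f + Real.log (GG φ L q t i x + ε))
      = (∑ i, a i * L i) * f + ∑ i, a i * Real.log (GG φ L q t i x + ε) := by
    rw [Finset.sum_mul, ← Finset.sum_add_distrib]
    refine Finset.sum_congr rfl fun i _ => ?_
    ring
  rw [h3]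
  have h7 : (∑ i, a i * L i) = k + 1 - a0 := by linarith
  rw [h7]
  ring

theorem fn_pr (hε : 0 < ε) {k : ℕ} (hsum : a0 + ∑ i, a i * L i = k + 1) (s : Fam n M ℂ) (x : M) :
    fn φ (pr (psi φ L q t a a0 ε) s s) x = ((nrm k φ s x * Wr φ L q t a ε x : ℝ) : ℂ) := by
  unfold fn pr nrm
  have h := exp_psi (φ := φ) (t := t) (a := a) hε hsum x
  rw [Complex.mul_conj, Complex.normSq_eq_norm_sq]
  rw [mul_assoc, mul_assoc ((‖s _ _‖ ^ 2 : ℝ)), ← Complex.ofReal_mul, h]
  push_cast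
  ring

theorem fn_en (hε : 0 < ε) {k : ℕ} (hsum : a0 + ∑ i, a i * L i = k + 1) (s : Fam n M ℂ) (x : M) :
    (fn φ (en (psi φ L q t a a0 ε) s s) x).re
      = (cn (lev (psi φ L q t a a0 ε (chartAt (E n) x)) (chartAt (E n) x x))
          (dbv (s (chartAt (E n) x)) (chartAt (E n) x x))
          (dbv (s (chartAt (E n) x)) (chartAt (E n) x x))).re
        * (Real.exp (-(k * φ (chartAt (E n) x) (chartAt (E n) x x))) * Wr φ L q t a ε x) := by
  unfold fn en
  have h := exp_psi (φ := φ) (t := t) (a := a) hε hsum x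
  rw [mul_assoc, ← Complex.ofReal_mul, h, Complex.re_mul_ofReal]

theorem eg_nonneg (hφ : IsPos 1 φ) {k : ℕ} (σ : Fam n M ℂ) (x : M) : 0 ≤ eg k φ σ x := by
  unfold eg
  refine mul_nonneg (cn_self_nonneg (hφ.pos _ (chart_mem_atlas _ x) _ ?_) _) (Real.exp_pos _).le
  exact (chartAt (E n) x).map_source (mem_chart_source _ x)

theorem re_integral_le {f : M → ℂ} {g : M → ℝ} (h0 : ∀ x, 0 ≤ (f x).re) (h1 : ∀ x, (f x).re ≤ g x) :
    ENNReal.ofReal (∫ x, f x ∂μ).re ≤ ∫⁻ x, ENNReal.ofReal (g x) ∂μ := by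
  by_cases hf : Integrable f μ
  · have h2 : (∫ x, f x ∂μ).re = ∫ x, (f x).re ∂μ := (integral_re hf).symm
    have h3 : Integrable (fun x => (f x).re) μ := hf.re
    rw [h2, ofReal_integral_eq_lintegral_ofReal h3 (Eventually.of_forall h0)]
    exact lintegral_mono fun x => ENNReal.ofReal_le_ofReal (h1 x)
  · rw [integral_undef hf]
    simp

theorem integrable_cont (hφ : IsPos 1 φ) (hμ : IsDens μ φ) {f : M → ℝ} (hf : Continuous f) :
    Integrable f μ := by
  haveI := isFiniteMeasure_of_isDens hφ.toIsWeight hμ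
  exact hf.integrable_of_hasCompactSupport (HasCompactSupport.of_compactSpace f)

theorem integrable_contC (hφ : IsPos 1 φ) (hμ : IsDens μ φ) {f : M → ℂ} (hf : Continuous f) :
    Integrable f μ := by
  haveI := isFiniteMeasure_of_isDens hφ.toIsWeight hμ
  exact hf.integrable_of_hasCompactSupport (HasCompactSupport.of_compactSpace f)

theorem step (hφ : IsPos 1 φ) (hμ : IsDens μ φ) {k : ℕ} (ht : ∀ i β, IsHol (L i) (t i β))
    (ha : ∀ i, 0 ≤ a i) (ha0 : 0 < a0) (hsum : a0 + ∑ i, a i * L i = k + 1) {σ : Fam n M ℂ}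
    (hσ : IsSec k σ) (hε : 0 < ε) :
    ∃ h ∈ H0 n M k, ∫⁻ x, ENNReal.ofReal (nrm k φ (σ - h) x * Wr φ L q t a ε x) ∂μ
      ≤ ENNReal.ofReal (1 / a0) * ∫⁻ x, ENNReal.ofReal (eg k φ σ x * Wr φ L q t a ε x) ∂μ := by
  have hpsi := psi_isPos (q := q) (t := t) hφ ht hε ha ha0 hsum
  obtain ⟨h, hh, hle, -⟩ := hormander hφ.toIsWeight hμ hpsi hσ
  obtain ⟨h', hh', heq⟩ := exists_H0 hh
  refine ⟨h', hh', ?_⟩
  have hn : ∀ x, nrm k φ (σ - h') x = nrm k φ (σ - h) x := by
    intro x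
    unfold nrm
    have : (σ - h') (chartAt (E n) x) (chartAt (E n) x x)
        = (σ - h) (chartAt (E n) x) (chartAt (E n) x x) := by
      simp only [Pi.sub_apply]
      rw [heq _ (chart_mem_atlas _ x) _ ((chartAt (E n) x).map_source (mem_chart_source _ x))]
    rw [this]
  simp only [hn]
  have hsec : IsSec k (σ - h) := hσ.sub hh.toIsSec
  have h1 : ip μ φ (psi φ L q t a a0 ε) (σ - h) (σ - h)
      = ((∫ x, nrm k φ (σ - h) x * Wr φ L q t a ε x ∂μ : ℝ) : ℂ) := by
    unfold ip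
    simp only [fn_pr hε hsum]
    exact integral_ofReal
  rw [h1, Complex.ofReal_re] at hle
  have h2 : ENNReal.ofReal (∫ x, nrm k φ (σ - h) x * Wr φ L q t a ε x ∂μ)
      = ∫⁻ x, ENNReal.ofReal (nrm k φ (σ - h) x * Wr φ L q t a ε x) ∂μ := by
    refine ofReal_integral_eq_lintegral_ofReal (integrable_cont hφ hμ
      ((continuous_nrm hφ.toIsWeight hsec).mul (continuous_Wr hφ ht hε))) ?_
    exact Eventually.of_forall fun x => mul_nonneg (nrm_nonneg _ _ _ _) (Wr_nonneg hε x)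
  rw [← h2]
  refine (ENNReal.ofReal_le_ofReal hle).trans ?_
  have hmem : ∀ x : M, chartAt (E n) x x ∈ (chartAt (E n) x).target := fun x =>
    (chartAt (E n) x).map_source (mem_chart_source _ x)
  have h3 := re_integral_le (μ := μ) (f := fun x => fn φ (en (psi φ L q t a a0 ε) σ σ) x)
    (g := fun x => (1 / a0) * (eg k φ σ x * Wr φ L q t a ε x))
    (fun x => by
      rw [fn_en hε hsum]
      refine mul_nonneg (cn_self_nonneg (hpsi.pos _ (chart_mem_atlas _ x) _ (hmem x)) _) ?_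
      exact mul_nonneg (Real.exp_pos _).le (Wr_nonneg hε x))
    (fun x => by
      rw [fn_en hε hsum]
      have h4 := cn_psi_le (q := q) (t := t) hφ ht hε ha ha0 hsum (chart_mem_atlas _ x) (hmem x)
        (dbv (σ (chartAt (E n) x)) (chartAt (E n) x x))
      have h5 : 0 ≤ Real.exp (-(k * φ (chartAt (E n) x) (chartAt (E n) x x))) * Wr φ L q t a ε x :=
        mul_nonneg (Real.exp_pos _).le (Wr_nonneg hε x)
      refine (mul_le_mul_of_nonneg_right h4 h5).trans (le_of_eq ?_)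
      unfold eg
      ring)
  refine h3.trans (le_of_eq ?_)
  rw [← lintegral_const_mul' _ _ ENNReal.ofReal_ne_top]
  refine lintegral_congr fun x => ?_
  rw [ENNReal.ofReal_mul (by positivity)]

/-- bound of the coefficients in an orthonormal basis -/
theorem coeff_bound (hφ : IsPos 1 φ) (hμ : IsDens μ φ) {k N : ℕ} {s : Fin N → Fam n M ℂ}
    (hs : IsONB μ φ k s) : ∃ C : ℝ, 0 ≤ C ∧ ∀ c : Fin N → ℂ, ∀ l,
      ‖c l‖ ≤ C * (∫ x, nrm k φ (∑ m, c m • s m) x ∂μ) + C := by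
  obtain ⟨D, hD⟩ : ∃ D : ℝ, ∀ x, dl φ x ≤ D := by
    obtain ⟨D, hD⟩ := isCompact_univ.bddAbove_image (continuous_dl hφ).continuousOn
    exact ⟨D, fun x => hD ⟨x, mem_univ x, rfl⟩⟩
  have hD0 : 0 ≤ D := by
    obtain ⟨x⟩ : Nonempty M := ConnectedSpace.toNonempty
    exact (dl_pos hφ x).le.trans (hD x)
  have hsec : ∀ l, IsSec k (s l) := fun l => (hs.1 l).1.toIsSec
  set I : ℝ := ∑ l, ∫ x, nrm k φ (s l) x ∂μ with hI
  have hI0 : ∀ l, 0 ≤ ∫ x, nrm k φ (s l) x ∂μ := fun l => integral_nonneg fun x => nrm_nonneg _ _ _ _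
  have hII : 0 ≤ I := Finset.sum_nonneg fun l _ => hI0 l
  refine ⟨D * (1 + I), by positivity, fun c l => ?_⟩
  have hh : IsSec k (∑ m, c m • s m) := IsSec.sum _ fun m _ => (hsec m).smul _
  have hhp : ∀ x, hp k φ (∑ m, c m • s m) (s l) x * (dl φ x : ℂ)
      = ∑ m, c m * (hp k φ (s m) (s l) x * (dl φ x : ℂ)) := by
    intro x
    unfold hp
    simp only [Finset.sum_apply, Pi.smul_apply, smul_eq_mul, Finset.sum_mul]
    refine Finset.sum_congr rfl fun m _ => ?_
    ring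
  have hint : ∀ m, Integrable (fun x => hp k φ (s m) (s l) x * (dl φ x : ℂ)) μ := fun m =>
    integrable_contC hφ hμ ((continuous_hp hφ.toIsWeight (hsec m) (hsec l)).mul
      (Complex.continuous_ofReal.comp (continuous_dl hφ)))
  have hc : c l = ∫ x, hp k φ (∑ m, c m • s m) (s l) x * (dl φ x : ℂ) ∂μ := by
    simp only [hhp]
    rw [integral_finset_sum _ fun m _ => (hint m).const_mul _]
    have : ∀ m, ∫ x, c m * (hp k φ (s m) (s l) x * (dl φ x : ℂ)) ∂μ
        = c m * (if m = l then 1 else 0) := by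
      intro m
      rw [integral_const_mul, hs.2.1 m l]
    simp only [this, mul_ite, mul_one, mul_zero, Finset.sum_ite_eq', Finset.mem_univ, if_true]
  rw [hc]
  have hb : ∀ x, ‖hp k φ (∑ m, c m • s m) (s l) x * (dl φ x : ℂ)‖
      ≤ D * (nrm k φ (∑ m, c m • s m) x + nrm k φ (s l) x) := by
    intro x
    rw [norm_mul, Complex.norm_real, Real.norm_eq_abs, abs_of_pos (dl_pos hφ x), mul_comm]
    have h1 : ‖hp k φ (∑ m, c m • s m) (s l) x‖ ≤ nrm k φ (∑ m, c m • s m) x + nrm k φ (s l) x := by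
      unfold hp nrm
      rw [norm_mul, norm_mul, RCLike.norm_conj, Complex.norm_real, Real.norm_eq_abs,
        abs_of_pos (Real.exp_pos _), ← add_mul]
      refine mul_le_mul_of_nonneg_right ?_ (Real.exp_pos _).le
      nlinarith [sq_nonneg (‖(∑ m, c m • s m) (chartAt (E n) x) (chartAt (E n) x x)‖
        - ‖s l (chartAt (E n) x) (chartAt (E n) x x)‖),
        norm_nonneg ((∑ m, c m • s m) (chartAt (E n) x) (chartAt (E n) x x)),
        norm_nonneg (s l (chartAt (E n) x) (chartAt (E n) x x))]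
    exact mul_le_mul (hD x) h1 (norm_nonneg _) hD0
  have i1 : Integrable (nrm k φ (∑ m, c m • s m)) μ :=
    integrable_cont hφ hμ (continuous_nrm hφ.toIsWeight hh)
  have i2 : Integrable (nrm k φ (s l)) μ :=
    integrable_cont hφ hμ (continuous_nrm hφ.toIsWeight (hsec l))
  refine (norm_integral_le_of_norm_le ((i1.add i2).const_mul D)
    (Eventually.of_forall hb)).trans ?_
  rw [integral_const_mul]
  have e1 : ∫ x, (nrm k φ (∑ m, c m • s m) + nrm k φ (s l)) x ∂μ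
      = ∫ x, nrm k φ (∑ m, c m • s m) x ∂μ + ∫ x, nrm k φ (s l) x ∂μ := integral_add i1 i2
  rw [e1]
  have h3 : ∫ x, nrm k φ (s l) x ∂μ ≤ I := Finset.single_le_sum (fun l _ => hI0 l) (Finset.mem_univ l)
  have h4 : 0 ≤ ∫ x, nrm k φ (∑ m, c m • s m) x ∂μ := integral_nonneg fun x => nrm_nonneg _ _ _ _
  nlinarith [mul_nonneg hD0 h4, mul_nonneg (mul_nonneg hD0 hII) h4]

/-- the regularised weight with values in `[0,∞]` -/
def WE (φ : Fam n M ℝ) {r : ℕ} (L q : Fin r → ℕ) (t : (i : Fin r) → Fin (q i) → Fam n M ℂ)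
    (a : Fin r → ℝ) (ε : ℝ) (x : M) : ℝ≥0∞ :=
  ∏ i, (ENNReal.ofReal (GG φ L q t i x + ε)) ^ (-a i)

theorem ofReal_Wr (hε : 0 < ε) (x : M) :
    ENNReal.ofReal (Wr φ L q t a ε x) = WE φ L q t a ε x := by
  unfold Wr WE
  rw [ENNReal.ofReal_prod_of_nonneg fun i _ => Real.rpow_nonneg
    (by have := GG_nonneg (φ := φ) (L := L) (t := t) i x; linarith) _]
  refine Finset.prod_congr rfl fun i _ => ?_
  rw [ENNReal.ofReal_rpow_of_pos (by have := GG_nonneg (φ := φ) (L := L) (t := t) i x; linarith)]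

theorem WE_le_WT (hε : 0 < ε) (ha : ∀ i, 0 ≤ a i) (x : M) :
    WE φ L q t a ε x ≤ WT φ L q t a x := by
  unfold WE WT
  refine Finset.prod_le_prod' fun i _ => ?_
  rw [ENNReal.rpow_neg, ENNReal.rpow_neg]
  refine ENNReal.inv_le_inv.mpr (ENNReal.rpow_le_rpow (ENNReal.ofReal_le_ofReal ?_) (ha i))
  change GG φ L q t i x ≤ _
  linarith

theorem factor_ne_zero (g a : ℝ) (ha : 0 ≤ a) : (ENNReal.ofReal g) ^ (-a) ≠ 0 := by
  intro h
  rw [ENNReal.rpow_eq_zero_iff] at h
  rcases h with ⟨-, h⟩ | ⟨h, -⟩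
  · linarith
  · exact ENNReal.ofReal_ne_top h

theorem WE_tendsto (ha : ∀ i, 0 ≤ a i) (x : M) {u : ℕ → ℝ} (hu : Tendsto u atTop (𝓝 0)) :
    Tendsto (fun j => WE φ L q t a (u j) x) atTop (𝓝 (WT φ L q t a x)) ∧
      WT φ L q t a x ≠ 0 := by
  unfold WE WT
  have key : ∀ s : Finset (Fin r),
      Tendsto (fun j => ∏ i ∈ s, (ENNReal.ofReal (GG φ L q t i x + u j)) ^ (-a i)) atTop
        (𝓝 (∏ i ∈ s, (ENNReal.ofReal (∑ β, nrm (L i) φ (t i β) x)) ^ (-a i))) ∧
      (∏ i ∈ s, (ENNReal.ofReal (∑ β, nrm (L i) φ (t i β) x)) ^ (-a i)) ≠ 0 := by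
    intro s
    induction s using Finset.induction_on with
    | empty => simp
    | insert i s hi ih =>
      simp only [Finset.prod_insert hi]
      have h1 : Tendsto (fun j => (ENNReal.ofReal (GG φ L q t i x + u j)) ^ (-a i)) atTop
          (𝓝 ((ENNReal.ofReal (∑ β, nrm (L i) φ (t i β) x)) ^ (-a i))) := by
        refine (ENNReal.continuous_rpow_const.tendsto _).comp ?_
        refine (ENNReal.continuous_ofReal.tendsto _).comp ?_
        have := (tendsto_const_nhds (x := GG φ L q t i x)).add hu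
        rw [add_zero] at this
        exact this
      have h2 := factor_ne_zero (∑ β, nrm (L i) φ (t i β) x) (a i) (ha i)
      refine ⟨ENNReal.Tendsto.mul h1 (Or.inl h2) ih.1 (Or.inl ih.2), mul_ne_zero h2 ih.2⟩
  exact key Finset.univ

theorem Wr_lower (hφ : IsPos 1 φ) (ht : ∀ i β, IsHol (L i) (t i β)) (ha : ∀ i, 0 ≤ a i) :
    ∃ c > 0, ∀ ε > 0, ε ≤ 1 → ∀ x, c ≤ Wr φ L q t a ε x := by
  have hB : ∀ i, ∃ B : ℝ, ∀ x, GG φ L q t i x ≤ B := by
    intro i
    obtain ⟨D, hD⟩ := isCompact_univ.bddAbove_image (continuous_GG (t := t) hφ ht i).continuousOn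
    exact ⟨D, fun x => hD ⟨x, mem_univ x, rfl⟩⟩
  choose B hB using hB
  obtain ⟨x0⟩ : Nonempty M := ConnectedSpace.toNonempty
  have hB0 : ∀ i, 0 ≤ B i := fun i => (GG_nonneg (φ := φ) (L := L) (t := t) i x0).trans (hB i x0)
  refine ⟨∏ i, (B i + 1) ^ (-a i), Finset.prod_pos fun i _ =>
    Real.rpow_pos_of_pos (by have := hB0 i; linarith) _, fun ε hε hε1 x => ?_⟩
  unfold Wr
  refine Finset.prod_le_prod (fun i _ => Real.rpow_nonneg (by have := hB0 i; linarith) _)
    fun i _ => ?_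
  have h1 := GG_nonneg (φ := φ) (L := L) (t := t) i x
  have h2 := hB i x
  exact Real.rpow_le_rpow_of_nonpos (by linarith) (by linarith) (by linarith [ha i])

end Q8

/-- Hörmander's theorem with the singular weight
`(k+1) φ + ∑ a_i log ∑_β |t_{iβ}|²_{L_i φ}` -/
theorem horm_sing (hφ : IsPos 1 φ) (hμ : IsDens μ φ) {k : ℕ} (hk : 1 ≤ k) {r : ℕ}
    {L q : Fin r → ℕ} {t : (i : Fin r) → Fin (q i) → Fam n M ℂ} (ht : ∀ i β, IsHol (L i) (t i β))
    {a : Fin r → ℝ} (ha : ∀ i, 0 ≤ a i) {a0 : ℝ} (ha0 : 0 < a0)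
    (hsum : a0 + ∑ i, a i * L i = k + 1) {σ : Fam n M ℂ} (hσ : IsSec k σ)
    (hfin : ∫⁻ x, WT φ L q t a x * ENNReal.ofReal (eg k φ σ x) ∂μ ≠ ⊤) :
    ∃ h ∈ H0 n M k, ∫⁻ x, WT φ L q t a x * ENNReal.ofReal (nrm k φ (σ - h) x) ∂μ
      ≤ ENNReal.ofReal (1 / a0) * ∫⁻ x, WT φ L q t a x * ENNReal.ofReal (eg k φ σ x) ∂μ := by
  haveI := isFiniteMeasure_of_isDens hφ.toIsWeight hμ
  set R : ℝ≥0∞ := ENNReal.ofReal (1 / a0) *
    ∫⁻ x, WT φ L q t a x * ENNReal.ofReal (eg k φ σ x) ∂μ with hR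
  have hRtop : R ≠ ⊤ := ENNReal.mul_ne_top ENNReal.ofReal_ne_top hfin
  -- the regularised solutions
  have hex : ∀ j : ℕ, ∃ h ∈ H0 n M k,
      ∫⁻ x, ENNReal.ofReal (nrm k φ (σ - h) x * Q8.Wr φ L q t a (1 / ((j : ℝ) + 1)) x) ∂μ ≤ R := by
    intro j
    have hε : (0 : ℝ) < 1 / ((j : ℝ) + 1) := by positivity
    obtain ⟨h, hh, hle⟩ := Q8.step (q := q) (t := t) hφ hμ ht ha ha0 hsum hσ hε
    refine ⟨h, hh, hle.trans ?_⟩
    rw [hR]
    gcongr with x
    rw [mul_comm (eg k φ σ x), ENNReal.ofReal_mul (Q8.Wr_nonneg hε x), Q8.ofReal_Wr hε]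
    gcongr
    exact Q8.WE_le_WT hε ha x
  choose h hh hle using hex
  obtain ⟨c, hc, hWc⟩ := Q8.Wr_lower (q := q) (t := t) hφ ht ha
  have hsecd : ∀ j, IsSec k (σ - h j) := fun j => hσ.sub (hh j).1.toIsSec
  -- boundedness
  have hbd : ∀ j, ∫ x, nrm k φ (h j) x ∂μ ≤ 2 * (R.toReal / c) + 2 * ∫ x, nrm k φ σ x ∂μ := by
    intro j
    have hε : (0 : ℝ) < 1 / ((j : ℝ) + 1) := by positivity
    have hε1 : 1 / ((j : ℝ) + 1) ≤ 1 := by
      rw [div_le_one (by positivity)]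
      have : (0 : ℝ) ≤ j := by positivity
      linarith
    have i1 : Integrable (nrm k φ (σ - h j)) μ :=
      Q8.integrable_cont hφ hμ (continuous_nrm hφ.toIsWeight (hsecd j))
    have i2 : Integrable (nrm k φ σ) μ :=
      Q8.integrable_cont hφ hμ (continuous_nrm hφ.toIsWeight hσ)
    have i3 : Integrable (nrm k φ (h j)) μ :=
      Q8.integrable_cont hφ hμ (continuous_nrm hφ.toIsWeight (hh j).1.toIsSec)
    have h1 : ∫ x, nrm k φ (σ - h j) x ∂μ ≤ R.toReal / c := by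
      rw [le_div_iff₀ hc]
      have h2 : ENNReal.ofReal (∫ x, nrm k φ (σ - h j) x * c ∂μ) ≤ R := by
        rw [ofReal_integral_eq_lintegral_ofReal (i1.mul_const c)
          (Eventually.of_forall fun x => mul_nonneg (Q8.nrm_nonneg _ _ _ _) hc.le)]
        refine (lintegral_mono fun x => ENNReal.ofReal_le_ofReal ?_).trans (hle j)
        exact mul_le_mul_of_nonneg_left (hWc _ hε hε1 x) (Q8.nrm_nonneg _ _ _ _)
      rw [integral_mul_const] at h2
      exact (ENNReal.ofReal_le_iff_le_toReal hRtop).mp h2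
    have h2 : ∫ x, nrm k φ (h j) x ∂μ
        ≤ ∫ x, (2 * nrm k φ (σ - h j) x + 2 * nrm k φ σ x) ∂μ := by
      refine integral_mono i3 ((i1.const_mul 2).add (i2.const_mul 2)) fun x => ?_
      unfold nrm
      simp only [Pi.sub_apply]
      rw [← mul_assoc, ← mul_assoc, ← add_mul]
      refine mul_le_mul_of_nonneg_right ?_ (Real.exp_pos _).le
      set A := σ (chartAt (E n) x) (chartAt (E n) x x)
      set B := h j (chartAt (E n) x) (chartAt (E n) x x)
      have h3 : ‖B‖ ≤ ‖A - B‖ + ‖A‖ := by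
        calc ‖B‖ = ‖A - (A - B)‖ := by congr 1; ring
          _ ≤ ‖A‖ + ‖A - B‖ := norm_sub_le _ _
          _ = _ := by ring
      nlinarith [sq_nonneg (‖A - B‖ - ‖A‖), norm_nonneg B, norm_nonneg A, norm_nonneg (A - B)]
    rw [integral_add (i1.const_mul 2) (i2.const_mul 2), integral_const_mul,
      integral_const_mul] at h2
    linarith
  -- coordinates
  obtain ⟨N, s, hs⟩ := onb_exists hφ hμ hk
  obtain ⟨C, hC0, hC⟩ := Q8.coeff_bound hφ hμ hs
  have hcoord : ∀ j, ∃ v : Fin N → ℂ, ∑ m, v m • s m = h j := by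
    intro j
    exact (Submodule.mem_span_range_iff_exists_fun ℂ).mp (hs.2.2 (hh j))
  choose v hv using hcoord
  set B : ℝ := C * (2 * (R.toReal / c) + 2 * ∫ x, nrm k φ σ x ∂μ) + C with hB
  have hvb : ∀ j, v j ∈ Metric.closedBall (0 : Fin N → ℂ) (max B 0) := by
    intro j
    rw [mem_closedBall_zero_iff, pi_norm_le_iff_of_nonneg (le_max_right _ _)]
    intro l
    refine (hC (v j) l).trans (le_max_of_le_left ?_)
    rw [hv j, hB]
    have := mul_le_mul_of_nonneg_left (hbd j) hC0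
    linarith
  obtain ⟨w, -, θ, hθ, hθt⟩ := tendsto_subseq_of_bounded Metric.isBounded_closedBall hvb
  set g : Fam n M ℂ := ∑ m, w m • s m with hg
  have hgH : g ∈ H0 n M k := Submodule.sum_mem _ fun m _ => Submodule.smul_mem _ _ (hs.1 m)
  refine ⟨g, hgH, ?_⟩
  -- Fatou
  have hεt : Tendsto (fun j : ℕ => 1 / (((θ j : ℕ) : ℝ) + 1)) atTop (𝓝 0) :=
    (tendsto_one_div_add_atTop_nhds_zero_nat (𝕜 := ℝ)).comp hθ.tendsto_atTop
  have hnt : ∀ x, Tendsto (fun j => nrm k φ (σ - h (θ j)) x) atTop (𝓝 (nrm k φ (σ - g) x)) := by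
    intro x
    unfold nrm
    refine Tendsto.mul_const _ ?_
    refine Tendsto.pow (Tendsto.norm ?_) 2
    simp only [Pi.sub_apply]
    refine tendsto_const_nhds.sub ?_
    have e1 : ∀ j, h (θ j) (chartAt (E n) x) (chartAt (E n) x x)
        = ∑ m, v (θ j) m * s m (chartAt (E n) x) (chartAt (E n) x x) := by
      intro j
      rw [← hv (θ j)]
      simp only [Finset.sum_apply, Pi.smul_apply, smul_eq_mul]
    have e2 : g (chartAt (E n) x) (chartAt (E n) x x)
        = ∑ m, w m * s m (chartAt (E n) x) (chartAt (E n) x x) := by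
      rw [hg]
      simp only [Finset.sum_apply, Pi.smul_apply, smul_eq_mul]
    simp only [e1, e2]
    refine tendsto_finset_sum _ fun m _ => Tendsto.mul_const _ ?_
    exact ((continuous_apply m).tendsto _).comp hθt
  set f : ℕ → M → ℝ≥0∞ := fun j x => Q8.WE φ L q t a (1 / (((θ j : ℕ) : ℝ) + 1)) x *
    ENNReal.ofReal (nrm k φ (σ - h (θ j)) x) with hf
  have hfe : ∀ j x, f j x = ENNReal.ofReal (nrm k φ (σ - h (θ j)) x *
      Q8.Wr φ L q t a (1 / (((θ j : ℕ) : ℝ) + 1)) x) := by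
    intro j x
    have hε : (0 : ℝ) < 1 / (((θ j : ℕ) : ℝ) + 1) := by positivity
    simp only [hf]
    rw [← Q8.ofReal_Wr hε, mul_comm (nrm k φ _ x), ENNReal.ofReal_mul (Q8.Wr_nonneg hε x)]
  have hfm : ∀ j, Measurable (f j) := by
    intro j
    have hε : (0 : ℝ) < 1 / (((θ j : ℕ) : ℝ) + 1) := by positivity
    have : f j = fun x => ENNReal.ofReal (nrm k φ (σ - h (θ j)) x *
      Q8.Wr φ L q t a (1 / (((θ j : ℕ) : ℝ) + 1)) x) := funext (hfe j)
    rw [this]
    exact (ENNReal.continuous_ofReal.comp ((continuous_nrm hφ.toIsWeight (hsecd _)).mul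
      (Q8.continuous_Wr hφ ht hε))).measurable
  have hfl : ∀ j, ∫⁻ x, f j x ∂μ ≤ R := by
    intro j
    simp only [hfe]
    exact hle (θ j)
  calc ∫⁻ x, WT φ L q t a x * ENNReal.ofReal (nrm k φ (σ - g) x) ∂μ
      ≤ ∫⁻ x, liminf (fun j => f j x) atTop ∂μ := by
        refine lintegral_mono fun x => ?_
        by_cases h0 : ENNReal.ofReal (nrm k φ (σ - g) x) = 0
        · rw [h0, mul_zero]
          exact bot_le
        · obtain ⟨h1, h2⟩ := Q8.WE_tendsto (φ := φ) (L := L) (q := q) (t := t) ha x hεt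
          have h3 : Tendsto (fun j => ENNReal.ofReal (nrm k φ (σ - h (θ j)) x)) atTop
              (𝓝 (ENNReal.ofReal (nrm k φ (σ - g) x))) :=
            (ENNReal.continuous_ofReal.tendsto _).comp (hnt x)
          have h4 := ENNReal.Tendsto.mul h1 (Or.inl h2) h3 (Or.inl h0)
          exact h4.liminf_eq.symm.le
    _ ≤ liminf (fun j => ∫⁻ x, f j x ∂μ) atTop := lintegral_liminf_le hfm
    _ ≤ R := by
        refine liminf_le_of_le ?_ ?_
        · isBoundedDefault
        · intro b hb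
          obtain ⟨j, hj⟩ := hb.exists
          exact hj.trans (hfl j)

end Pool.Agent.helper63.NU
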