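import Pool.Agent.helper54.NU.D1
import Pool.Agent.helper70.NU.A7

set_option autoImplicit false
set_option linter.all false

/-! Module Q8, part 1 (helper53): the Levi form of `log (∑ |t_β|² + ε e^{Lφ})`. -/

open MeasureTheory Filter Topology Set
open scoped ContDiff Manifold Matrix ENNReal ComplexOrder

noncomputable section

namespace Pool.Agent.helper63.NU

namespace Q8

variable {n q : ℕ} {U : Set (E n)}

/-- `ε e^{Lφ}` -/
def G (ε L : ℝ) (φ : E n → ℝ) (z : E n) : ℝ := ε * Real.exp (L * φ z)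

/-- `∑ |t_β|² + ε e^{Lφ}` -/
def F (t : Fin q → E n → ℂ) (ε L : ℝ) (φ : E n → ℝ) (z : E n) : ℝ :=
  (∑ β, ‖t β z‖ ^ 2) + ε * Real.exp (L * φ z)

theorem F_eq (t : Fin q → E n → ℂ) (ε L : ℝ) (φ : E n → ℝ) (z : E n) :
    F t ε L φ z = D1.A t (fun _ => 0) (fun _ => 1) z + G ε L φ z := by
  unfold F D1.A G
  simp

theorem F_pos (t : Fin q → E n → ℂ) {ε : ℝ} (hε : 0 < ε) (L : ℝ) (φ : E n → ℝ) (z : E n) :
    0 < F t ε L φ z := by
  unfold F
  have : 0 ≤ ∑ β, ‖t β z‖ ^ 2 := Finset.sum_nonneg fun i _ => by positivity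
  positivity

theorem G_cast (ε L : ℝ) (φ : E n → ℝ) :
    (fun z => ((G ε L φ z : ℝ) : ℂ)) = fun z => (((fun r : ℝ => ε * Real.exp (L * r)) (φ z) : ℝ) : ℂ) :=
  rfl

theorem hasDeriv_G (ε L r : ℝ) : HasDerivAt (fun r : ℝ => ε * Real.exp (L * r))
    (L * (ε * Real.exp (L * r))) r := by
  have h : HasDerivAt (fun r : ℝ => L * r) L r := by simpa using (hasDerivAt_id r).const_mul L
  have := (h.exp).const_mul ε
  refine this.congr_deriv ?_
  ring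

theorem dz_G {ε L : ℝ} {φ : E n → ℝ} {z : E n} (hφ : DifferentiableAt ℝ φ z) (k : Fin n) :
    dz k (fun z => ((G ε L φ z : ℝ) : ℂ)) z
      = ((L * G ε L φ z : ℝ) : ℂ) * dz k (fun z => ((φ z : ℝ) : ℂ)) z := by
  rw [G_cast, dz_real_comp (hasDeriv_G ε L (φ z)).differentiableAt hφ, (hasDeriv_G ε L (φ z)).deriv]
  rfl

theorem db_G {ε L : ℝ} {φ : E n → ℝ} {z : E n} (hφ : DifferentiableAt ℝ φ z) (k : Fin n) :
    db k (fun z => ((G ε L φ z : ℝ) : ℂ)) z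
      = ((L * G ε L φ z : ℝ) : ℂ) * db k (fun z => ((φ z : ℝ) : ℂ)) z := by
  rw [G_cast, db_real_comp (hasDeriv_G ε L (φ z)).differentiableAt hφ, (hasDeriv_G ε L (φ z)).deriv]
  rfl

theorem contDiffOn_cast {φ : E n → ℝ} (hφ : ContDiffOn ℝ ∞ φ U) :
    ContDiffOn ℝ ∞ (fun z => ((φ z : ℝ) : ℂ)) U :=
  Complex.ofRealCLM.contDiff.comp_contDiffOn hφ

theorem contDiffOn_G {ε L : ℝ} {φ : E n → ℝ} (hφ : ContDiffOn ℝ ∞ φ U) :
    ContDiffOn ℝ ∞ (G ε L φ) U := by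
  unfold G
  exact contDiffOn_const.mul ((contDiffOn_const.mul hφ).exp)

theorem dz_db_G (hU : IsOpen U) {ε L : ℝ} {φ : E n → ℝ} (hφ : ContDiffOn ℝ ∞ φ U) {z : E n}
    (hz : z ∈ U) (j k : Fin n) :
    dz j (db k (fun z => ((G ε L φ z : ℝ) : ℂ))) z
      = ((L * G ε L φ z : ℝ) : ℂ) * ((L : ℂ) * (dz j (fun z => ((φ z : ℝ) : ℂ)) z
          * db k (fun z => ((φ z : ℝ) : ℂ)) z) + lev φ z j k) := by
  have hd : ∀ y ∈ U, DifferentiableAt ℝ φ y := fun y hy =>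
    (hφ.differentiableOn (by simp)).differentiableAt (hU.mem_nhds hy)
  have hev : (db k (fun z => ((G ε L φ z : ℝ) : ℂ))) =ᶠ[𝓝 z]
      fun z => ((L * G ε L φ z : ℝ) : ℂ) * db k (fun z => ((φ z : ℝ) : ℂ)) z := by
    filter_upwards [hU.mem_nhds hz] with y hy
    exact db_G (hd y hy) k
  have h1 : DifferentiableAt ℝ (fun z => ((L * G ε L φ z : ℝ) : ℂ)) z := by
    have : ContDiffOn ℝ ∞ (fun z => L * G ε L φ z) U := contDiffOn_const.mul (contDiffOn_G hφ)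
    exact ((contDiffOn_cast this).differentiableOn (by simp)).differentiableAt (hU.mem_nhds hz)
  have h2 : DifferentiableAt ℝ (db k (fun z => ((φ z : ℝ) : ℂ))) z :=
    ((contDiffOn_db hU (contDiffOn_cast hφ) k).differentiableOn (by simp)).differentiableAt
      (hU.mem_nhds hz)
  rw [dz_congr hev, dz_mul h1 h2]
  have e1 : dz j (fun z => ((L * G ε L φ z : ℝ) : ℂ)) z
      = (L : ℂ) * (((L * G ε L φ z : ℝ) : ℂ) * dz j (fun z => ((φ z : ℝ) : ℂ)) z) := by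
    have : (fun z => ((L * G ε L φ z : ℝ) : ℂ)) = fun z => (L : ℂ) * ((G ε L φ z : ℝ) : ℂ) := by
      funext z; push_cast; ring
    rw [this, dz_const_mul, dz_G (hd z hz)]
  rw [e1]
  change _ + _ * lev φ z j k = _
  ring

theorem F_cast (t : Fin q → E n → ℂ) (ε L : ℝ) (φ : E n → ℝ) :
    (fun z => ((F t ε L φ z : ℝ) : ℂ))
      = fun z => ((D1.A t (fun _ => 0) (fun _ => 1) z : ℝ) : ℂ) + ((G ε L φ z : ℝ) : ℂ) := by
  funext z
  rw [F_eq]; push_cast; ring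

theorem conj_dz_real (φ : E n → ℝ) (z : E n) (k : Fin n) :
    db k (fun z => ((φ z : ℝ) : ℂ)) z = (starRingEnd ℂ) (dz k (fun z => ((φ z : ℝ) : ℂ)) z) := by
  have h := db_conj (fun z => ((φ z : ℝ) : ℂ)) z k
  simp only [Complex.conj_ofReal] at h
  exact h

theorem contDiffOn_F {t : Fin q → E n → ℂ} (ht : ∀ β, ContDiffOn ℝ ∞ (t β) U) {ε L : ℝ}
    {φ : E n → ℝ} (hφ : ContDiffOn ℝ ∞ φ U) : ContDiffOn ℝ ∞ (F t ε L φ) U := by
  unfold F
  refine ContDiffOn.add ?_ (contDiffOn_G hφ)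
  exact ContDiffOn.sum fun β _ => (ht β).norm_sq ℝ

theorem sq_sum (a : Fin n → ℂ) :
    ∑ j, ∑ k, a j * (starRingEnd ℂ) (a k) = ((‖∑ j, a j‖ ^ 2 : ℝ) : ℂ) := by
  rw [← Complex.normSq_eq_norm_sq, ← Complex.mul_conj, map_sum, Finset.sum_mul_sum]

theorem alg_real {A Gy Q Z Y X L l : ℝ} (hA0 : 0 ≤ A) (hGy0 : 0 < Gy) (hQ0 : 0 ≤ Q) (hZ0 : 0 ≤ Z)
    (hY0 : 0 ≤ Y) (hX0 : 0 ≤ X) (hL : 0 ≤ L) (hl : 0 ≤ l) (hZ2 : Z ^ 2 ≤ Q * A)
    (hYn : Y ≤ Z + L * Gy * X) :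
    0 ≤ (A + Gy)⁻¹ * (Q + (L * Gy) * (L * X ^ 2 + l)) - ((A + Gy) ^ 2)⁻¹ * Y ^ 2 := by
  have hF0 : 0 < A + Gy := by positivity
  have hY2 : Y ^ 2 ≤ (A + Gy) * (Q + Gy * (L * X) ^ 2) := by
    set r : ℝ := L * X with hr
    have hr0 : 0 ≤ r := by positivity
    have h1 : Y ^ 2 ≤ (Z + Gy * r) ^ 2 := by
      apply pow_le_pow_left₀ hY0
      calc Y ≤ Z + L * Gy * X := hYn
        _ = Z + Gy * r := by rw [hr]; ring
    have h2 : 2 * r * Z ≤ A * r ^ 2 + Q := by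
      have h4 : 0 ≤ A * r ^ 2 + Q := by positivity
      have h3 : (2 * r * Z) ^ 2 ≤ 4 * r ^ 2 * (Q * A) := by
        have : (2 * r * Z) ^ 2 = 4 * r ^ 2 * Z ^ 2 := by ring
        rw [this]
        exact mul_le_mul_of_nonneg_left hZ2 (by positivity)
      have h5 : (2 * r * Z) ^ 2 ≤ (A * r ^ 2 + Q) ^ 2 := by
        refine h3.trans ?_
        have := sq_nonneg (A * r ^ 2 - Q)
        have e : (A * r ^ 2 + Q) ^ 2 = (A * r ^ 2 - Q) ^ 2 + 4 * r ^ 2 * (Q * A) := by ring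
        rw [e]; linarith
      exact (sq_le_sq₀ (by positivity) h4).mp h5
    refine h1.trans ?_
    have e : (A + Gy) * (Q + Gy * r ^ 2) - (Z + Gy * r) ^ 2
        = (Q * A - Z ^ 2) + Gy * (A * r ^ 2 + Q - 2 * r * Z) := by ring
    have h6 : 0 ≤ Gy * (A * r ^ 2 + Q - 2 * r * Z) := mul_nonneg hGy0.le (by linarith)
    linarith
  have hfin : ((A + Gy) ^ 2)⁻¹ * Y ^ 2 ≤ (A + Gy)⁻¹ * (Q + Gy * (L * X) ^ 2) := by
    rw [inv_mul_le_iff₀ (by positivity)]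
    calc Y ^ 2 ≤ (A + Gy) * (Q + Gy * (L * X) ^ 2) := hY2
      _ = (A + Gy) ^ 2 * ((A + Gy)⁻¹ * (Q + Gy * (L * X) ^ 2)) := by field_simp
  have hex : (A + Gy)⁻¹ * (Q + (L * Gy) * (L * X ^ 2 + l))
      = (A + Gy)⁻¹ * (Q + Gy * (L * X) ^ 2) + (A + Gy)⁻¹ * (L * Gy * l) := by ring
  rw [hex]
  have : 0 ≤ (A + Gy)⁻¹ * (L * Gy * l) := by positivity
  linarith

theorem sq_sum' (a : Fin n → ℂ) :
    ∑ j, a j * ∑ k, (starRingEnd ℂ) (a k) = ((‖∑ j, a j‖ ^ 2 : ℝ) : ℂ) := by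
  rw [← sq_sum]
  simp only [Finset.mul_sum]

/-- positivity of the Levi form -/
theorem levi_nonneg (hU : IsOpen U) {t : Fin q → E n → ℂ}
    (ht : ∀ β, DifferentiableOn ℂ (t β) U) {ε L : ℝ} (hε : 0 < ε) (hL : 0 ≤ L) {φ : E n → ℝ}
    (hφ : ContDiffOn ℝ ∞ φ U) {y : E n} (hy : y ∈ U)
    (hpos : ∀ v : Fin n → ℂ, 0 ≤ (∑ j, ∑ k, lev φ y j k * v j * (starRingEnd ℂ) (v k)).re)
    (v : Fin n → ℂ) :
    0 ≤ (∑ j, ∑ k, lev (fun z => Real.log (F t ε L φ z)) y j k * v j *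
      (starRingEnd ℂ) (v k)).re := by
  have htc : ∀ β, ContDiffOn ℝ ∞ (t β) U := fun β => contDiffOn_real_of_hol hU (ht β)
  have hFc : ContDiffOn ℝ ∞ (F t ε L φ) U := contDiffOn_F htc hφ
  have hFd : ∀ z ∈ U, DifferentiableAt ℝ (F t ε L φ) z := fun z hz =>
    (hFc.differentiableOn (by simp)).differentiableAt (hU.mem_nhds hz)
  have hφd : ∀ z ∈ U, DifferentiableAt ℝ φ z := fun z hz =>
    (hφ.differentiableOn (by simp)).differentiableAt (hU.mem_nhds hz)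
  have hdd : ∀ k, DifferentiableAt ℝ (db k (fun z => ((F t ε L φ z : ℝ) : ℂ))) y := fun k =>
    ((contDiffOn_db hU (contDiffOn_cast hFc) k).differentiableOn (by simp)).differentiableAt
      (hU.mem_nhds hy)
  have hF0 : 0 < F t ε L φ y := F_pos t hε L φ y
  have hAd : ∀ z ∈ U, DifferentiableAt ℝ
      (fun z => ((D1.A t (fun _ => 0) (fun _ => 1) z : ℝ) : ℂ)) z := fun z hz =>
    Complex.ofRealCLM.differentiableAt.comp z (D1.diffA hU ht _ _ hz)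
  have hGd : ∀ z ∈ U, DifferentiableAt ℝ (fun z => ((G ε L φ z : ℝ) : ℂ)) z := fun z hz =>
    ((contDiffOn_cast (contDiffOn_G hφ)).differentiableOn (by simp)).differentiableAt
      (hU.mem_nhds hz)
  have hAcast : ContDiffOn ℝ ∞ (fun z => ((D1.A t (fun _ => 0) (fun _ => 1) z : ℝ) : ℂ)) U := by
    have h1 : ContDiffOn ℝ ∞ (fun z => D1.A t (fun _ => 0) (fun _ => 1) z) U := by
      unfold D1.A
      refine ContDiffOn.sum fun β _ => contDiffOn_const.mul (contDiffOn_const.mul ?_)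
      exact (htc β).norm_sq ℝ
    exact contDiffOn_cast h1
  -- first derivatives of F
  have dzF : ∀ j, dz j (fun z => ((F t ε L φ z : ℝ) : ℂ)) y
      = ∑ β, dz j (t β) y * (starRingEnd ℂ) (t β y)
        + ((L * G ε L φ y : ℝ) : ℂ) * dz j (fun z => ((φ z : ℝ) : ℂ)) y := by
    intro j
    rw [F_cast, dz_add (hAd y hy) (hGd y hy), D1.dz_A hU ht _ _ hy, dz_G (hφd y hy)]
    simp
  have lF : ∀ j k, dz j (db k (fun z => ((F t ε L φ z : ℝ) : ℂ))) y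
      = ∑ β, dz j (t β) y * (starRingEnd ℂ) (dz k (t β) y)
        + ((L * G ε L φ y : ℝ) : ℂ) * ((L : ℂ) * (dz j (fun z => ((φ z : ℝ) : ℂ)) y
          * db k (fun z => ((φ z : ℝ) : ℂ)) y) + lev φ y j k) := by
    intro j k
    have hev : (db k (fun z => ((F t ε L φ z : ℝ) : ℂ))) =ᶠ[𝓝 y]
        fun z => db k (fun z => ((D1.A t (fun _ => 0) (fun _ => 1) z : ℝ) : ℂ)) z
          + db k (fun z => ((G ε L φ z : ℝ) : ℂ)) z := by
      filter_upwards [hU.mem_nhds hy] with z hz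
      rw [F_cast, db_add (hAd z hz) (hGd z hz)]
    have d1 : DifferentiableAt ℝ (db k (fun z => ((D1.A t (fun _ => 0) (fun _ => 1) z : ℝ) : ℂ))) y :=
      ((contDiffOn_db hU hAcast k).differentiableOn (by simp)).differentiableAt (hU.mem_nhds hy)
    have d2 : DifferentiableAt ℝ (db k (fun z => ((G ε L φ z : ℝ) : ℂ))) y :=
      ((contDiffOn_db hU (contDiffOn_cast (contDiffOn_G hφ)) k).differentiableOn
        (by simp)).differentiableAt (hU.mem_nhds hy)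
    rw [dz_congr hev]
    have := dz_add (j := j) d1 d2
    rw [show (fun z => db k (fun z => ((D1.A t (fun _ => 0) (fun _ => 1) z : ℝ) : ℂ)) z
          + db k (fun z => ((G ε L φ z : ℝ) : ℂ)) z) = _ from rfl]
    rw [this, D1.dz_db_A hU ht _ _ hy, dz_db_G hU hφ hy]
    simp
  -- notation
  set Fy : ℝ := F t ε L φ y with hFy
  set Gy : ℝ := G ε L φ y with hGy
  have hGy0 : 0 < Gy := by simp only [hGy, G]; positivity
  set X : ℂ := ∑ j, dz j (fun z => ((φ z : ℝ) : ℂ)) y * v j with hX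
  set T : Fin q → ℂ := fun β => ∑ j, dz j (t β) y * v j with hT
  set Y : ℂ := ∑ j, dz j (fun z => ((F t ε L φ z : ℝ) : ℂ)) y * v j with hY
  set lv : ℂ := ∑ j, ∑ k, lev φ y j k * v j * (starRingEnd ℂ) (v k) with hlv
  have hYe : Y = ∑ β, T β * (starRingEnd ℂ) (t β y) + ((L * Gy : ℝ) : ℂ) * X := by
    simp only [hY, dzF, add_mul, Finset.sum_add_distrib, Finset.sum_mul]
    congr 1
    · rw [Finset.sum_comm]
      refine Finset.sum_congr rfl fun β _ => ?_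
      simp only [hT, Finset.sum_mul]
      refine Finset.sum_congr rfl fun j _ => ?_
      ring
    · simp only [hX, Finset.mul_sum]
      refine Finset.sum_congr rfl fun j _ => ?_
      ring
  have e0 : ∀ z : ℂ, z * (starRingEnd ℂ) z = ((‖z‖ ^ 2 : ℝ) : ℂ) := by
    intro z; rw [Complex.mul_conj, Complex.normSq_eq_norm_sq]
  -- the Levi form
  have key : ∑ j, ∑ k, lev (fun z => Real.log (F t ε L φ z)) y j k * v j * (starRingEnd ℂ) (v k)
      = (Fy : ℂ)⁻¹ * ((∑ β, ((‖T β‖ ^ 2 : ℝ) : ℂ)) + ((L * Gy : ℝ) : ℂ) * ((L : ℂ) *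
          ((‖X‖ ^ 2 : ℝ) : ℂ) + lv)) - ((Fy : ℂ) ^ 2)⁻¹ * ((‖Y‖ ^ 2 : ℝ) : ℂ) := by
    have e1 : ∀ j k, lev (fun z => Real.log (F t ε L φ z)) y j k * v j * (starRingEnd ℂ) (v k)
        = (Fy : ℂ)⁻¹ * ((∑ β, (dz j (t β) y * v j) * (starRingEnd ℂ) (dz k (t β) y * v k))
          + ((L * Gy : ℝ) : ℂ) * ((L : ℂ) * ((dz j (fun z => ((φ z : ℝ) : ℂ)) y * v j) *
            (starRingEnd ℂ) (dz k (fun z => ((φ z : ℝ) : ℂ)) y * v k))
              + lev φ y j k * v j * (starRingEnd ℂ) (v k)))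
          - ((Fy : ℂ) ^ 2)⁻¹ * ((dz j (fun z => ((F t ε L φ z : ℝ) : ℂ)) y * v j) *
            (starRingEnd ℂ) (dz k (fun z => ((F t ε L φ z : ℝ) : ℂ)) y * v k)) := by
      intro j k
      rw [D1.lev_log hU hFd hy hF0 hdd, lF, conj_dz_real (F t ε L φ) y k, conj_dz_real φ y k]
      simp only [map_mul]
      have : ∑ β, dz j (t β) y * v j * ((starRingEnd ℂ) (dz k (t β) y) * (starRingEnd ℂ) (v k))
          = (∑ β, dz j (t β) y * (starRingEnd ℂ) (dz k (t β) y)) * (v j * (starRingEnd ℂ) (v k)) := by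
        rw [Finset.sum_mul]
        refine Finset.sum_congr rfl fun β _ => ?_
        ring
      rw [this]
      ring
    simp only [e1]
    simp only [Finset.sum_sub_distrib, ← Finset.mul_sum, Finset.sum_add_distrib]
    have s1 : ∑ j, ∑ k, ∑ β, (dz j (t β) y * v j) * (starRingEnd ℂ) (dz k (t β) y * v k)
        = ∑ β, ((‖T β‖ ^ 2 : ℝ) : ℂ) := by
      have h1 : ∀ β, ((‖T β‖ ^ 2 : ℝ) : ℂ)
          = ∑ j, ∑ k, (dz j (t β) y * v j) * (starRingEnd ℂ) (dz k (t β) y * v k) := by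
        intro β
        rw [← sq_sum]
      simp only [h1]
      rw [Finset.sum_comm (s := (Finset.univ : Finset (Fin q)))]
      refine Finset.sum_congr rfl fun j _ => ?_
      rw [Finset.sum_comm]
    rw [s1, sq_sum' (fun j => dz j (fun z => ((φ z : ℝ) : ℂ)) y * v j),
      sq_sum' (fun j => dz j (fun z => ((F t ε L φ z : ℝ) : ℂ)) y * v j)]
  rw [key]
  have hreal : ((Fy : ℂ)⁻¹ * ((∑ β, ((‖T β‖ ^ 2 : ℝ) : ℂ)) + ((L * Gy : ℝ) : ℂ) * ((L : ℂ) *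
          ((‖X‖ ^ 2 : ℝ) : ℂ) + lv)) - ((Fy : ℂ) ^ 2)⁻¹ * ((‖Y‖ ^ 2 : ℝ) : ℂ)).re
      = Fy⁻¹ * ((∑ β, ‖T β‖ ^ 2) + (L * Gy) * (L * ‖X‖ ^ 2 + lv.re)) - (Fy ^ 2)⁻¹ * ‖Y‖ ^ 2 := by
    have h1 : (∑ β, ((‖T β‖ ^ 2 : ℝ) : ℂ)) = ((∑ β, ‖T β‖ ^ 2 : ℝ) : ℂ) := by push_cast; rfl
    rw [h1, ← Complex.ofReal_inv, ← Complex.ofReal_pow, ← Complex.ofReal_inv, Complex.sub_re,
      Complex.re_ofReal_mul, Complex.re_ofReal_mul, Complex.add_re, Complex.re_ofReal_mul,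
      Complex.add_re, Complex.re_ofReal_mul]
    simp only [Complex.ofReal_re]
  rw [hreal]
  have hlv0 : 0 ≤ lv.re := hpos v
  set Q : ℝ := ∑ β, ‖T β‖ ^ 2 with hQ
  set A : ℝ := ∑ β, ‖t β y‖ ^ 2 with hA
  have hQ0 : 0 ≤ Q := Finset.sum_nonneg fun i _ => by positivity
  have hA0 : 0 ≤ A := Finset.sum_nonneg fun i _ => by positivity
  have hFA : Fy = A + Gy := rfl
  set Z : ℝ := ‖∑ β, T β * (starRingEnd ℂ) (t β y)‖ with hZ
  have hZ0 : 0 ≤ Z := norm_nonneg _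
  have hZ2 : Z ^ 2 ≤ Q * A := D1.cs T (fun β => t β y)
  have hYn : ‖Y‖ ≤ Z + L * Gy * ‖X‖ := by
    rw [hYe]
    refine (norm_add_le _ _).trans ?_
    rw [norm_mul, Complex.norm_real, Real.norm_eq_abs, abs_of_nonneg (by positivity)]
  rw [hFA]
  exact alg_real hA0 hGy0 hQ0 hZ0 (norm_nonneg Y) (norm_nonneg X) hL hlv0 hZ2 hYn

end Q8

end Pool.Agent.helper63.NU
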