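import Pool.Agent.helper53.NU.Q8a
import Pool.Agent.helper69.NU.B2
import Pool.Agent.helper51.NU.B3
import Pool.Agent.helper63.NU.Defs3

set_option autoImplicit false
set_option linter.all false

/-! Module Q8, part 2 (helper53): the regularised weights. -/

open MeasureTheory Filter Topology Set
open scoped ContDiff Manifold Matrix ENNReal ComplexOrder

noncomputable section

namespace Pool.Agent.helper63.NU

namespace Q8

section matrix
variable {n : ℕ}

theorem quad_eq (Θ : Matrix (Fin n) (Fin n) ℂ) (x : Fin n → ℂ) :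
    star x ⬝ᵥ (Θ *ᵥ x)
      = ∑ j, ∑ k, Θ j k * (starRingEnd ℂ) (x j) * (starRingEnd ℂ) ((starRingEnd ℂ) (x k)) := by
  simp only [dotProduct, Matrix.mulVec, Pi.star_apply, Finset.mul_sum, Complex.conj_conj,
    RCLike.star_def]
  refine Finset.sum_congr rfl fun j _ => Finset.sum_congr rfl fun k _ => ?_
  ring

theorem psd_of {Θ : Matrix (Fin n) (Fin n) ℂ} (hh : Θ.IsHermitian)
    (h : ∀ v : Fin n → ℂ, 0 ≤ (∑ j, ∑ k, Θ j k * v j * (starRingEnd ℂ) (v k)).re) :
    Θ.PosSemidef := by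
  refine Matrix.PosSemidef.of_dotProduct_mulVec_nonneg hh fun x => ?_
  have h2 := h fun j => (starRingEnd ℂ) (x j)
  rw [← quad_eq] at h2
  rw [Complex.le_def]
  refine ⟨by simpa using h2, ?_⟩
  have h3 := hh.im_star_dotProduct_mulVec_self x
  simpa using h3.symm

theorem quad_nonneg {Θ : Matrix (Fin n) (Fin n) ℂ} (h : Θ.PosSemidef) (v : Fin n → ℂ) :
    0 ≤ (∑ j, ∑ k, Θ j k * v j * (starRingEnd ℂ) (v k)).re := by
  have h1 := h.dotProduct_mulVec_nonneg (fun j => (starRingEnd ℂ) (v j))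
  rw [quad_eq] at h1
  simp only [Complex.conj_conj] at h1
  exact (Complex.le_def.1 h1).1

end matrix

variable {n : ℕ} {M : Type*} [TopologicalSpace M] [ChartedSpace (E n) M]
  [IsManifold 𝓘(ℂ, E n) ω M]
variable {φ : Fam n M ℝ} {r : ℕ} {L q : Fin r → ℕ} {t : (i : Fin r) → Fin (q i) → Fam n M ℂ}
  {a : Fin r → ℝ} {a0 ε : ℝ}

/-- the regularised weight -/
def psi (φ : Fam n M ℝ) (L q : Fin r → ℕ) (t : (i : Fin r) → Fin (q i) → Fam n M ℂ)
    (a : Fin r → ℝ) (a0 ε : ℝ) : Fam n M ℝ := fun e y =>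
  a0 * φ e y + ∑ i, a i * Real.log (F (fun β => t i β e) ε (L i) (φ e) y)

theorem log_smooth (hφ : IsPos 1 φ) (ht : ∀ i β, IsHol (L i) (t i β)) (hε : 0 < ε) {e : Ch n M}
    (he : e ∈ atlas (E n) M) (i : Fin r) :
    ContDiffOn ℝ ∞ (fun y => Real.log (F (fun β => t i β e) ε (L i) (φ e) y)) e.target :=
  (contDiffOn_F (fun β => (ht i β).smooth e he) (hφ.smooth e he)).log
    fun y _ => (F_pos _ hε _ _ _).ne'

theorem psi_smooth (hφ : IsPos 1 φ) (ht : ∀ i β, IsHol (L i) (t i β)) (hε : 0 < ε) {e : Ch n M}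
    (he : e ∈ atlas (E n) M) : ContDiffOn ℝ ∞ (psi φ L q t a a0 ε e) e.target := by
  unfold psi
  exact (contDiffOn_const.mul (hφ.smooth e he)).add
    (ContDiffOn.sum fun i _ => contDiffOn_const.mul (log_smooth hφ ht hε he i))

theorem lev_sum {U : Set (E n)} (hU : IsOpen U) {m : ℕ} {c : Fin m → ℝ} {u : Fin m → E n → ℝ}
    (hu : ∀ i, ContDiffOn ℝ ∞ (u i) U) {y : E n} (hy : y ∈ U) :
    lev (fun z => ∑ i, c i * u i z) y = ∑ i, ((c i : ℝ) : ℂ) • lev (u i) y := by
  have hc : ∀ i, ContDiffAt ℝ 2 (u i) y := fun i =>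
    ((hu i).contDiffAt (hU.mem_nhds hy)).of_le (by norm_cast)
  have key : ∀ s : Finset (Fin m),
      lev (fun z => ∑ i ∈ s, c i * u i z) y = ∑ i ∈ s, ((c i : ℝ) : ℂ) • lev (u i) y := by
    intro s
    induction s using Finset.induction_on with
    | empty =>
      simp only [Finset.sum_empty]
      ext j k
      have : (db k fun z : E n => (((0 : ℝ) : ℝ) : ℂ)) = fun _ => 0 := by
        funext z; exact db_const _ _ _
      simp only [lev, Matrix.of_apply, this, dz_const, Matrix.zero_apply]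
    | insert i s hi ih =>
      have h1 : (fun z => ∑ j ∈ insert i s, c j * u j z)
          = fun z => c i * u i z + ∑ j ∈ s, c j * u j z := by
        funext z; rw [Finset.sum_insert hi]
      rw [h1, Finset.sum_insert hi, lev_add (contDiffAt_const.mul (hc i))
        (ContDiffAt.sum fun j _ => contDiffAt_const.mul (hc j)), lev_const_mul _ (hc i), ih]
  exact key Finset.univ

theorem lev_psi (hφ : IsPos 1 φ) (ht : ∀ i β, IsHol (L i) (t i β)) (hε : 0 < ε) {e : Ch n M}
    (he : e ∈ atlas (E n) M) {y : E n} (hy : y ∈ e.target) :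
    lev (psi φ L q t a a0 ε e) y = (a0 : ℂ) • lev (φ e) y
      + ∑ i, ((a i : ℝ) : ℂ) • lev (fun z => Real.log (F (fun β => t i β e) ε (L i) (φ e) z)) y := by
  have hmem := e.open_target.mem_nhds hy
  have c1 : ContDiffAt ℝ 2 (φ e) y := ((hφ.smooth e he).contDiffAt hmem).of_le (by norm_cast)
  have c2 : ContDiffAt ℝ 2 (fun y => ∑ i, a i * Real.log (F (fun β => t i β e) ε (L i) (φ e) y)) y :=
    ((ContDiffOn.sum fun i _ => contDiffOn_const.mul
      (log_smooth hφ ht hε he i)).contDiffAt hmem).of_le (by norm_cast)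
  have := lev_add (ψ := fun y => a0 * φ e y) (contDiffAt_const.mul c1) c2
  change lev (fun z => a0 * φ e z + _) y = _
  rw [this, lev_const_mul _ c1, lev_sum e.open_target (fun i => log_smooth hφ ht hε he i) hy]

theorem lev_log_psd (hφ : IsPos 1 φ) (ht : ∀ i β, IsHol (L i) (t i β)) (hε : 0 < ε) {e : Ch n M}
    (he : e ∈ atlas (E n) M) {y : E n} (hy : y ∈ e.target) (i : Fin r) :
    (lev (fun z => Real.log (F (fun β => t i β e) ε (L i) (φ e) z)) y).PosSemidef := by
  have hmem := e.open_target.mem_nhds hy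
  have c2 : ContDiffAt ℝ 2 (fun y => Real.log (F (fun β => t i β e) ε (L i) (φ e) y)) y :=
    ((log_smooth hφ ht hε he i).contDiffAt hmem).of_le (by norm_cast)
  refine psd_of (lev_herm c2) fun v => ?_
  exact levi_nonneg e.open_target (fun β => (ht i β).hol e he) hε (by positivity)
    (hφ.smooth e he) hy (quad_nonneg (hφ.pos e he y hy).posSemidef) v

theorem psi_isPos (hφ : IsPos 1 φ) (ht : ∀ i β, IsHol (L i) (t i β)) (hε : 0 < ε)
    (ha : ∀ i, 0 ≤ a i) (ha0 : 0 < a0) {k : ℕ} (hsum : a0 + ∑ i, a i * L i = k + 1) :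
    IsPos (k + 1) (psi φ L q t a a0 ε) := by
  refine ⟨⟨fun e he => psi_smooth hφ ht hε he, fun e he e' he' x hx => ?_⟩, fun e he y hy => ?_⟩
  · have hJ : jac e e' (e x) ≠ 0 := jac_ne_zero he he' hx.1 hx.2
    have hJ2 : 0 < ‖jac e e' (e x)‖ ^ 2 := by positivity
    have h4 := hφ.trans e he e' he' x hx
    have h5 : φ e' (e' x) = φ e (e x) + Real.log (‖jac e e' (e x)‖ ^ 2) := by
      rw [h4]; push_cast; ring
    have h1 : ∀ i, F (fun β => t i β e') ε (L i) (φ e') (e' x)
        = (‖jac e e' (e x)‖ ^ 2) ^ (L i) * F (fun β => t i β e) ε (L i) (φ e) (e x) := by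
      intro i
      unfold F
      rw [mul_add, Finset.mul_sum]
      congr 1
      · refine Finset.sum_congr rfl fun β _ => ?_
        simp only [(ht i β).trans e he e' he' x hx, norm_mul, norm_pow]
        ring
      · rw [h5, mul_add, Real.exp_add]
        have : Real.exp ((L i : ℝ) * Real.log (‖jac e e' (e x)‖ ^ 2))
            = (‖jac e e' (e x)‖ ^ 2) ^ (L i) := by
          rw [mul_comm, Real.exp_mul, Real.exp_log hJ2, Real.rpow_natCast]
        rw [this]; ring
    have h2 : ∀ i, Real.log (F (fun β => t i β e') ε (L i) (φ e') (e' x))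
        = L i * Real.log (‖jac e e' (e x)‖ ^ 2)
          + Real.log (F (fun β => t i β e) ε (L i) (φ e) (e x)) := by
      intro i
      rw [h1 i, Real.log_mul (by positivity) (F_pos _ hε _ _ _).ne', Real.log_pow]
    unfold psi
    simp only [h2]
    rw [h5]
    have h6 : ∑ i, a i * (L i * Real.log (‖jac e e' (e x)‖ ^ 2)
          + Real.log (F (fun β => t i β e) ε (L i) (φ e) (e x)))
        = (∑ i, a i * L i) * Real.log (‖jac e e' (e x)‖ ^ 2)
          + ∑ i, a i * Real.log (F (fun β => t i β e) ε (L i) (φ e) (e x)) := by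
      rw [Finset.sum_mul, ← Finset.sum_add_distrib]
      refine Finset.sum_congr rfl fun i _ => ?_
      ring
    rw [h6]
    have h7 : (∑ i, a i * L i) = k + 1 - a0 := by linarith
    rw [h7]
    push_cast
    ring
  · rw [lev_psi hφ ht hε he hy]
    have h3 : (0 : ℂ) < (a0 : ℂ) := by rw [Complex.zero_lt_real]; exact ha0
    refine ((hφ.pos e he y hy).smul h3).add_posSemidef ?_
    refine Matrix.posSemidef_sum _ fun i _ => ?_
    have h4 : (0 : ℂ) ≤ ((a i : ℝ) : ℂ) := by rw [Complex.zero_le_real]; exact ha i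
    exact (lev_log_psd hφ ht hε he hy i).smul h4

/-- comparison of the norms of covectors -/
theorem cn_psi_le (hφ : IsPos 1 φ) (ht : ∀ i β, IsHol (L i) (t i β)) (hε : 0 < ε)
    (ha : ∀ i, 0 ≤ a i) (ha0 : 0 < a0) {k : ℕ} (hsum : a0 + ∑ i, a i * L i = k + 1)
    {e : Ch n M} (he : e ∈ atlas (E n) M) {y : E n} (hy : y ∈ e.target) (α : Fin n → ℂ) :
    (cn (lev (psi φ L q t a a0 ε e) y) α α).re ≤ (cn (lev (φ e) y) α α).re / a0 := by
  refine cn_mono (hφ.pos e he y hy) ha0 ((psi_isPos hφ ht hε ha ha0 hsum).pos e he y hy)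
    (fun v => ?_) α
  rw [lev_psi hφ ht hε he hy]
  have h1 : (∑ i, ((a i : ℝ) : ℂ) • lev (fun z => Real.log (F (fun β => t i β e) ε (L i) (φ e) z)) y).PosSemidef := by
    refine Matrix.posSemidef_sum _ fun i _ => ?_
    have h4 : (0 : ℂ) ≤ ((a i : ℝ) : ℂ) := by rw [Complex.zero_le_real]; exact ha i
    exact (lev_log_psd hφ ht hε he hy i).smul h4
  have h2 := quad_nonneg h1 v
  set S := ∑ i, ((a i : ℝ) : ℂ) • lev (fun z => Real.log (F (fun β => t i β e) ε (L i) (φ e) z)) y
  have h3 : ∑ j, ∑ l, ((a0 : ℂ) • lev (φ e) y + S) j l * v j * (starRingEnd ℂ) (v l)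
      = (a0 : ℂ) * (∑ j, ∑ l, lev (φ e) y j l * v j * (starRingEnd ℂ) (v l))
        + ∑ j, ∑ l, S j l * v j * (starRingEnd ℂ) (v l) := by
    rw [Finset.mul_sum, ← Finset.sum_add_distrib]
    refine Finset.sum_congr rfl fun j _ => ?_
    rw [Finset.mul_sum, ← Finset.sum_add_distrib]
    refine Finset.sum_congr rfl fun l _ => ?_
    simp only [Matrix.add_apply, Matrix.smul_apply, smul_eq_mul]
    ring
  rw [h3, Complex.add_re, Complex.re_ofReal_mul]
  linarith

end Q8

end Pool.Agent.helper63.NU
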